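import Pool.Agent.N977.P.Defs

/-!
Statements of the steps.
-/

open MeasureTheory Set Filter Topology
open scoped ContDiff ComplexConjugate

namespace Pool.Agent.N977.P

open H459R3.NS Pool.Agent.N977.Q Pool.Agent.N977.S
open Pool.Agent.N977.K (SolK cmp)

/-- The widths. (`2 ^ n / (n + 2) ^ 250 = 0` for small `n`, and this quantity is increasing for
large `n`.) -/
def S_JN : Prop := Jp Jn

/-- The packets: all properties except the bound for the integral. With `J = Jn n`: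
`∑ tr J = J²`, `∑ (tr J)² = ((2 J² + 1) / (3 J))²`, so `om J ≤ 1.07 / J`. -/
def S_PK1 : Prop := Jp Jn →
  (∀ e n k, Gp e n (-k) = Gp e n k) ∧
  (∀ e n, {k | Gp e n k ≠ 0}.Finite) ∧
  (∀ e n k, Gp e n k ≠ 0 → k 2 = 0) ∧
  (∀ e n k, Gp e n k ≠ 0 → |len k ^ 2 - len (qq e n) ^ 2| ≤ 7 * (Mn 8 n * ((Jn n : ℝ) - 1))) ∧
  (∀ e n e' n' k, Gp e n k ≠ 0 → Gp e' n' k ≠ 0 → e = e' ∧ n = n') ∧
  (∀ e n, ∑' k, Gp e n k ^ 2 = 1) ∧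
  (∀ e n, ∑' k, |Gp e n k| ≤ 3 * Jn n) ∧
  (∀ e n k, |Gp e n k| ≤ 2 / Jn n)

/-- The integral of the packets: `Xf (Gp e n) x = 2 om F(x) cos(2 π q x)` with the Fejer kernel
`F(x) = ∑ tr(l) cos(2 π l x) = |∑_{a < J} e(a x₀)|² |∑_{b < J} e(b x₁)|² / J² ≥ 0`, `∫ F = 1`. -/
def S_PK2 : Prop := Jp Jn → ∀ e n, ∫ x in cube, |Xf (Gp e n) x| ≤ 3 / Jn n

/-- The operator: smoothness, test formula, Fourier coefficients. (Compare `S/Op.lean`; single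
modes instead of packets.) -/
def S_OP : Prop := ∀ (J : ℕ → ℕ) (G : Fin 2 → ℕ → K3 → ℝ) (α μ : ℕ → ℝ), Pk J G → Ga 8 α μ →
  (∀ u v, SPV u → SPV v → SPV (KP G α μ u v)) ∧
  (∀ u v, SPV u → SPV v → ∀ f : V → ℝ, Continuous f →
    HasSum (fun n => cXp G α u v n * (∫ x in cube, Xf (G 0 n) x * f x)
      + cYp G α μ u v n * (∫ x in cube, Xf (G 1 n) x * f x)) (∫ x in cube, kp G α μ u v x * f x)) ∧
  (∀ u v, SPV u → SPV v → ∀ k, fr (kp G α μ u v) k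
    = ((∑' n, (cXp G α u v n * G 0 n k + cYp G α μ u v n * G 1 n k) : ℝ) : ℂ))

/-- The operator belongs to the class `LowE`. (Compare `S/Op2.lean`, `S/Op3.lean`:
`|am (G e n) u| ≤ (∑_{G e n k ≠ 0} |û(k)|²)^(1/2)`, and `Mn 8 n ≤ |k| ≤ 5 Mn 8 n` for the frequencies
`k` of the packets of the levels `n`, `n + 1`.) -/
def S_LOW : Prop := S_OP → ∀ (J : ℕ → ℕ) (G : Fin 2 → ℕ → K3 → ℝ) (α μ : ℕ → ℝ), Pk J G →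
  Ga 8 α μ → ∀ g σ p δ : ℝ, 0 ≤ g →
  (∀ n, |α n| ≤ g * ((Mn 8 n : ℝ) ^ σ * Real.log (Mn 8 n) ^ p)) →
  (∀ n, |μ n| ≤ g * ((Mn 8 n : ℝ) ^ σ * Real.log (Mn 8 n) ^ p)) → 18 * g ≤ δ →
  LowE σ p δ (KP G α μ)

/-- The bounds with the supremum norm: `|am (G e n) u| ≤ ‖u‖_∞ ∫ |Xf (G e n)| ≤ 3 ‖u‖_∞ / J n`. -/
def S_SUP : Prop := S_OP → ∀ (J : ℕ → ℕ) (G : Fin 2 → ℕ → K3 → ℝ) (α μ : ℕ → ℝ), Pk J G →
  Ga 8 α μ → ∀ g σ p δ : ℝ, 0 ≤ g →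
  (∀ n, |α n| ≤ g * (J n * ((Mn 8 n : ℝ) ^ σ * Real.log (Mn 8 n) ^ p))) →
  (∀ n, |μ n| ≤ g * (J n * ((Mn 8 n : ℝ) ^ σ * Real.log (Mn 8 n) ^ p))) → 18 * g ≤ δ →
  LowS σ p δ (KP G α μ)

/-- the noise in the packet `e, n` -/
noncomputable def rhu (ν : ℝ) (J : ℕ → ℕ) (G : Fin 2 → ℕ → K3 → ℝ) (v : V → V) (e : Fin 2)
    (n : ℕ) : ℝ :=
  ∑' l : K3, |G e n l| * (7 * (ν * (2 * Real.pi) ^ 2 * (Mn 8 n * ((J n : ℝ) - 1))) * bnp G v l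
    + 2 * Real.pi * len l * cv (un v) (un v) l)

/-- The evolution of the amplitudes. (Compare `aa_deriv` in `S/Mode2.lean`. With
`δ = ∑ G² |k|²` and `Q = |q|²` one has `∑ G |k|² Re û₃ = δ x + ∑ G (|k|² - Q) Re b̂₃`, because
`∑ G Re b̂₃ = 0`.) -/
def S_MODA : Prop := S_OP → ∀ (J : ℕ → ℕ) (G : Fin 2 → ℕ → K3 → ℝ) (α μ : ℕ → ℝ), Pk J G →
  Ga 8 α μ → ∀ (ν T : ℝ) (u : ℝ → V → V) (q : ℝ → V → ℝ), 0 ≤ ν → SolK ν T (KP G α μ) u q →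
  ∀ t ∈ Ioo 0 T, ∀ e n, ∃ B, |B| ≤ rhu ν J G (u t) e n ∧
    HasDerivAt (fun s => am (G e n) (u s))
      (-(ν * (2 * Real.pi) ^ 2 * (∑' k, G e n k ^ 2 * len k ^ 2) * am (G e n) (u t))
        + (if e = 0 then cXp G α (u t) (u t) n else cYp G α μ (u t) (u t) n) + B) t

/-- The evolution of the other part. (Compare `bn_deriv` in `S/Mode2.lean`; the perturbation drops
out, because `∑ G² = 1`.) -/
def S_MODB : Prop := S_OP → ∀ (J : ℕ → ℕ) (G : Fin 2 → ℕ → K3 → ℝ) (α μ : ℕ → ℝ), Pk J G →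
  Ga 8 α μ → ∀ (ν T : ℝ) (u : ℝ → V → V) (q : ℝ → V → ℝ), 0 ≤ ν → SolK ν T (KP G α μ) u q →
  ∀ t ∈ Ioo 0 T,
  (∀ k, (∀ e n, G e n k = 0) →
    ∃ B, |B| ≤ bnp G (u t) k * (2 * Real.pi * len k * cv (un (u t)) (un (u t)) k) ∧
      HasDerivAt (fun s => bnp G (u s) k ^ 2)
        (-(2 * (ν * (2 * Real.pi) ^ 2 * len k ^ 2)) * bnp G (u t) k ^ 2 + 2 * B) t) ∧
  (∀ e n k, G e n k ≠ 0 →
    ∃ B, |B| ≤ bnp G (u t) k * (2 * Real.pi * len k * cv (un (u t)) (un (u t)) k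
        + |G e n k| * (14 * (ν * (2 * Real.pi) ^ 2 * (Mn 8 n * ((J n : ℝ) - 1)))
          * |am (G e n) (u t)| + rhu ν J G (u t) e n)) ∧
      HasDerivAt (fun s => bnp G (u s) k ^ 2)
        (-(2 * (ν * (2 * Real.pi) ^ 2 * len k ^ 2)) * bnp G (u t) k ^ 2 + 2 * B) t)

/-- A solution gives a system. (Compare `S/Ext.lean`, `S/Ext2.lean`.) -/
def S_EXT : Prop := S_OP → S_MODA → S_MODB →
  ∀ (J : ℕ → ℕ) (G : Fin 2 → ℕ → K3 → ℝ) (α μ : ℕ → ℝ), Pk J G → Ga 8 α μ → (∀ n, 0 ≤ α n) →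
  (∀ n, 0 ≤ μ n) → ∀ (p δ ν T T₂ ε E c : ℝ) (u : ℝ → V → V) (q : ℝ → V → ℝ),
  LowE 2 p δ (KP G α μ) → 0 < ν → 0 < T → T < T₂ → 0 < ε → ε ≤ 1 → c = (2 * Real.pi) ^ 2 * ν →
  0 ≤ E → √(EE 0 (u 0)) ≤ ε * E → SolK ν T₂ (KP G α μ) u q →
  ∃ f : Fin 2 → ℕ → ℝ → ℝ,
    Syp T c E J G (fun n => c * ∑' k, G 0 n k ^ 2 * len k ^ 2)
      (fun n => c * ∑' k, G 1 n k ^ 2 * len k ^ 2) (fun n => ε * α n) (fun n => ε * μ n)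
      (fun e n t => am (G e n) (u (cl T t)) / ε) f (fun k t => un (u t) k / ε)
      (fun k t => bnp G (u t) k / ε)

/-- The weighted norms. (Compare `S/Sys.lean`, `S/Des.lean`. On the packet `e, m` all frequencies
have `len k ^ 2` in `[3.99 M², 5.01 M²]`, `M = Mn 8 m`, and the weights `gw` are comparable up to the
factor `1.02`.) -/
def S_DES : Prop := ∀ (T c E : ℝ) (J : ℕ → ℕ) (G : Fin 2 → ℕ → K3 → ℝ) (d D α μ : ℕ → ℝ)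
  (x f : Fin 2 → ℕ → ℝ → ℝ) (a b : K3 → ℝ → ℝ), Pk J G → Syp T c E J G d D α μ x f a b →
  (∀ M, 1 ≤ M → ∀ t ∈ Icc 0 T, (Summable fun k => gw M k * a k t) ∧
    (Summable fun k => gw M k * b k t) ∧ GG b M t ≤ 13 * GG a M t) ∧
  (∀ M, 1 ≤ M → ContinuousOn (GG a M) (Icc 0 T)) ∧
  (∀ n, ∀ t ∈ Icc 0 T, ∀ X : ℕ → ℝ, (∀ e m, |x e m t| ≤ X m) →
    (Summable fun m => 8 ^ (m - n) * (J m * X m)) →
    GG a (Mn 8 n) t ≤ GG b (Mn 8 n) t + 100 * ∑' m, 8 ^ (m - n) * (J m * X m)) ∧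
  (∀ n m, n ≤ m → ∀ t ∈ Icc 0 T, ∀ Γ, GG a (Mn 8 n) t ≤ Γ → ∀ e,
    rho c J G (fun l => a l t) (fun l => b l t) e m
      ≤ Mn 8 m * (1 / 8) ^ (m - n) * (40 * c * Γ + 40 * Γ ^ 2 / J m))

/-- The smoothing estimate. (Compare `zstep`, `Sy.zb`. Use, on finite sets `F` of frequencies which
contain with a frequency of a packet the whole packet, the comparison function
`∑_{k ∈ F} gw k * exp (-(Λ k * (t - r))) * √(b k r ^ 2 + η ^ 2)` with `Λ k = c M²` on the packet `e, m`,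
`M = Mn 8 m`, and `Λ k = c |k|² / 2` for the other `k`; the terms of `rho` with `b` are absorbed by the
dissipation, since `J - 1 ≤ M / 1000`, and the terms `14 c M (J - 1) |x|` give
`∫ c M² exp (-(c M² (t - r))) dr ≤ 1`.) -/
def S_ZST : Prop := S_DES → ∀ (T c E : ℝ) (J : ℕ → ℕ) (G : Fin 2 → ℕ → K3 → ℝ)
  (d D α μ : ℕ → ℝ) (x f : Fin 2 → ℕ → ℝ → ℝ) (a b : K3 → ℝ → ℝ), Pk J G →
  Syp T c E J G d D α μ x f a b → ∀ (n : ℕ) (tn ts Γ : ℝ) (X : ℕ → ℝ), 0 ≤ tn → tn ≤ ts →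
  ts ≤ T → (∀ r ∈ Ioo tn ts, GG a (Mn 8 n) r ≤ Γ) → (∀ e m, ∀ r ∈ Ioo tn ts, |x e m r| ≤ X m) →
  (∀ m, 0 ≤ X m) → (Summable fun m => 8 ^ (m - n) * (J m * ((J m : ℝ) - 1) / Mn 8 m * X m)) →
  GG b (Mn 8 n) ts ≤ GG b (Mn 8 n) tn + 10 ^ 4 * Γ ^ 2 * √((ts - tn) / c)
    + 10 ^ 4 * ∑' m, 8 ^ (m - n) * (J m * ((J m : ℝ) - 1) / Mn 8 m * X m)

/-- The induction over the stages. (helper977) -/
def S_IND : Prop := S_DES → S_ZST → ∀ (i : ℕ) (T c E B₀ : ℝ) (J : ℕ → ℕ)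
  (G : Fin 2 → ℕ → K3 → ℝ) (d D α μ κ τ q ℓ s w : ℕ → ℝ) (x f : Fin 2 → ℕ → ℝ → ℝ)
  (a b : K3 → ℝ → ℝ), Pk J G → Syp T c E J G d D α μ x f a b →
  Pxp i T E B₀ c J d D α μ κ τ q ℓ s w → 0 ≤ B₀ →
  (∀ m, i + 1 ≤ m → ∀ j, En (x 0) (x 1) m j 0 ≤ e0 8 m ^ 2) → 7 / 10 ≤ x 0 i 0 →
  s i ≤ x 1 i 0 → GG b (Mn 8 i) 0 ≤ B₀ → False

/-- The parameters. (Compare `S/Par.lean`, `S/Par2.lean`, `S/Par3.lean`: the same choice of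
`κ, τ, q, s, w` with `N = 8` and `ℓ = C₂ LL ^ (-r)`.) -/
def S_PAR : Prop := Jp Jn → ∀ θ p c E B₀ T : ℝ, 0 < θ → θ ≤ 1 → 1 < p → p ≤ 2 → 0 < c → 1 ≤ E →
  0 ≤ B₀ → 0 < T → ∃ N₀ : ℕ, ∀ i : ℕ, N₀ ≤ Mn 8 i → ∀ d D : ℕ → ℝ,
    (∀ n, |d n - 4 * (c * (Mn 8 n : ℝ) ^ 2)| ≤ c * (Mn 8 n : ℝ) ^ 2 / 100) →
    (∀ n, |D n - 5 * (c * (Mn 8 n : ℝ) ^ 2)| ≤ c * (Mn 8 n : ℝ) ^ 2 / 100) →
    ∃ κ τ q ℓ s w : ℕ → ℝ,
      Pxp i T E B₀ c Jn d D (al θ 2 p 8) (mu θ 2 p 8) κ τ q ℓ s w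

/-- The initial data. (Compare `S/Init.lean`.) -/
def S_INI : Prop := ∀ (J : ℕ → ℕ) (G : Fin 2 → ℕ → K3 → ℝ), Pk J G →
  (∀ i, SPV (dP G i)) ∧
  (∀ i x, ∑ j, pd j (fun y => dP G i y j) x = 0) ∧
  (∀ i, ∑ j, ∫ x in cube, dP G i x j ^ 2 = 1) ∧
  (∀ i m, am (G 0 m) (dP G i) = if i = m then 4 / 5 else 0) ∧
  (∀ i m, am (G 1 m) (dP G i) = if i = m then 3 / 5 else 0) ∧
  (∀ e m u v, SPV u → SPV v → ∀ r : ℝ,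
    am (G e m) (fun x => u x + r • v x) = am (G e m) u + r * am (G e m) v) ∧
  (∀ w, SPV w → ∀ R, Wn w ≤ R → ∀ e m, (Mn 8 m : ℝ) ^ 6 * |am (G e m) w| ≤ 2 * R) ∧
  (∀ i w v, ∀ ε R : ℝ, SPV w → 0 < ε → Wn w ≤ R → v = (fun x => w x + ε • dP G i x) →
    (∀ M, 1 ≤ M → ∑' k, gw M k * (bnp G v k / ε) ≤ 13 * R / ε) ∧ EE 0 v ≤ 2 * ε ^ 2 + 2 * R ^ 2)

/-- Local existence and uniqueness of smooth solutions of the Navier-Stokes equations with an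
additional term `K` of the class `LowE 2 p δ`. -/
def S_LE : Prop := ∀ (p δ : ℝ) (K : (V → V) → (V → V) → V → V), 0 ≤ p → LowE 2 p δ K →
  ∀ ν : ℝ, 0 < ν →
  (∀ (T : ℝ) (u u' : ℝ → V → V) (q q' : ℝ → V → ℝ), SolK ν T K u q → SolK ν T K u' q' →
    u 0 = u' 0 → ∀ t ∈ Ico 0 T, u t = u' t) ∧
  (∀ v : V → V, SPV v → (∀ x, ∑ i, pd i (fun y => v y i) x = 0) →
    ∃ T : ℝ, 0 < T ∧ ∃ (u : ℝ → V → V) (q : ℝ → V → ℝ), SolK ν T K u q ∧ u 0 = v)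

end Pool.Agent.N977.P
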