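import Pool.Agent.N977.P.Stm2

/-!
Statements of further steps: the velocity is unbounded at the maximal time.
-/

open MeasureTheory Set Filter Topology
open scoped ContDiff ComplexConjugate

namespace Pool.Agent.N977.P

open H459R3.NS Pool.Agent.N977.Q Pool.Agent.N977.S
open Pool.Agent.N977.K (SolK cmp)

/-- The solution exists for all times, or up to a time at which the norm of `H³` is unbounded.
(Compare `Pool/Agent/N319/LE/Main0.lean`, `Pool/Agent/N279/LE/Ksol.lean`: there `S_ABS2`, which gives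
this alternative, is used for the existence on a short interval. The energy is bounded.) -/
def S_MAXB : Prop := ∀ (p δ : ℝ) (K : (V → V) → (V → V) → V → V), 0 ≤ p → LowE 2 p δ K →
  ∀ ν : ℝ, 0 < ν → ∀ v : V → V, SPV v → (∀ x, ∑ i, pd i (fun y => v y i) x = 0) →
  ∃ (u : ℝ → V → V) (q : ℝ → V → ℝ), u 0 = v ∧ ((∀ T, SolK ν T K u q) ∨
    ∃ T, 0 < T ∧ SolK ν T K u q ∧ ¬ ∃ M, ∀ t ∈ Ico 0 T, Hn 3 0 (u t) ≤ M)

/-- Bounded solutions have bounded gradients in `L²`. (Energy estimate for `∑ |k|² |û(k)|²`, i.e.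
test with `Δ u`; `|∫ (u·∇)u · Δu| ≤ 3 B ‖∇u‖ ‖Δu‖`; `LowS.b1` with `s₁ = 1`, `a₁ = p'`, `s₂ = a₂ = 0`
for `∫ K(u,u)·Δu`; `|k| log(2+|k|)^p' ≤ η |k|² + C`.) -/
def S_H1B : Prop := ∀ (p p' δ δ' ν T : ℝ) (K : (V → V) → (V → V) → V → V) (u : ℝ → V → V)
  (q : ℝ → V → ℝ), 0 ≤ p → 0 ≤ p' → 0 < ν → LowE 2 p δ K → LowS 1 p' δ' K → SolK ν T K u q →
  (∃ B, ∀ t ∈ Ico 0 T, ∀ x i, |u t x i| ≤ B) → ∃ C, ∀ t ∈ Ico 0 T, Hn 1 0 (u t) ≤ C

/-- Regularity of solutions which are bounded in `H¹`. (Energy estimate for `∑ |k|^(2s) |û(k)|²`,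
`s ≥ 2` a natural number: `|⟨K(u,u), |∇|^(2s) u⟩| ≤ C Hn (1/2) p u * Hn (s + 3/4) 0 u ^ 2` by
`LowE.bound`; convection term: `≤ C (∑ |û|) Hn (s+1) 0 u * Hn s 0 u` and interpolation
`∑_{k≠0} |û(k)| ≤ C Hn (7/4) 0 u ≤ ...`. One may use a finite induction over `s`. Compare also
`Q/Tw1.lean` .. `Q/Tw4.lean` (`YY_bdd'`).) -/
def S_BOOT : Prop := ∀ (p δ ν T : ℝ) (K : (V → V) → (V → V) → V → V) (u : ℝ → V → V)
  (q : ℝ → V → ℝ), 0 ≤ p → 0 < ν → LowE 2 p δ K → SolK ν T K u q →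
  (∃ C, ∀ t ∈ Ico 0 T, Hn 1 0 (u t) ≤ C) → ∀ s : ℝ, ∃ C, ∀ t ∈ Ico 0 T, Hn s 0 (u t) ≤ C

end Pool.Agent.N977.P
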