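import Pool.Agent.N977.P.Stm3

/-!
Unbounded velocity at the maximal time.
-/

open MeasureTheory Set Filter Topology

namespace Pool.Agent.N977.P

open H459R3.NS Pool.Agent.N977.Q Pool.Agent.N977.S
open Pool.Agent.N977.K (SolK)

/-- Breakdown before the time `T`: a solution with the initial value `v` exists on `[0, T₁)`,
`0 < T₁ ≤ T`, its velocity is unbounded, and all solutions with the initial value `v` are
restrictions of it. -/
def Blow (ν T : ℝ) (K : (V → V) → (V → V) → V → V) (v : V → V) : Prop :=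
  ∃ T₁ : ℝ, 0 < T₁ ∧ T₁ ≤ T ∧ ∃ (u : ℝ → V → V) (q : ℝ → V → ℝ), SolK ν T₁ K u q ∧ u 0 = v ∧
    (∀ B : ℝ, ∃ t ∈ Ico 0 T₁, ∃ x i, B < |u t x i|) ∧
    ∀ (T₂ : ℝ) (u' : ℝ → V → V) (q' : ℝ → V → ℝ), SolK ν T₂ K u' q' → u' 0 = v →
      T₂ ≤ T₁ ∧ ∀ t ∈ Ico 0 T₂, ∀ x, u' t x = u t x

variable {ν T T' : ℝ} {K : (V → V) → (V → V) → V → V} {u : ℝ → V → V} {q : ℝ → V → ℝ}

theorem restr (h : SolK ν T K u q) (hT : T' ≤ T) : SolK ν T' K u q := by
  have h1 : Ico 0 T' ⊆ Ico 0 T := Ico_subset_Ico_right hT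
  have h2 : Ico (0 : ℝ) T' ×ˢ (univ : Set V) ⊆ Ico 0 T ×ˢ univ := prod_mono_left h1
  exact ⟨h.smooth_u.mono h2, h.smooth_p.mono h2, fun t ht => h.per_u t (h1 ht),
    fun t ht => h.per_p t (h1 ht), fun t ht => h.divfree t (h1 ht),
    fun t ht => h.momentum t (Ioo_subset_Ioo_right hT ht)⟩

/-- periodicity with integer vectors -/
theorem per_int {f : V → V} (hf : Per f) (n : Fin 3 → ℤ) (x : V) :
    f (fun i => x i + n i) = f x := by
  have h1 : ∀ (i : Fin 3) (m : ℕ) (x : V), f (x + Pi.single i (m : ℝ)) = f x := by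
    intro i m
    induction m with
    | zero => intro x; simp
    | succ m ih =>
      intro x
      have e : x + Pi.single i ((m + 1 : ℕ) : ℝ) = (x + Pi.single i (m : ℝ)) + Pi.single i 1 := by
        rw [add_assoc, ← Pi.single_add]
        push_cast
        rfl
      rw [e, hf i, ih]
  have h2 : ∀ (i : Fin 3) (m : ℤ) (x : V), f (x + Pi.single i (m : ℝ)) = f x := by
    intro i m x
    rcases Int.eq_nat_or_neg m with ⟨k, rfl | rfl⟩
    · exact_mod_cast h1 i k x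
    · have h3 := h1 i k (x + Pi.single i ((-(k : ℤ) : ℤ) : ℝ))
      rw [← h3, add_assoc, ← Pi.single_add]
      push_cast
      simp
  have e : (fun i => x i + n i) = ((x + Pi.single 0 (n 0 : ℝ)) + Pi.single 1 (n 1 : ℝ))
      + Pi.single 2 (n 2 : ℝ) := by
    funext i
    fin_cases i <;> simp
  rw [e, h2, h2, h2]

/-- solutions are bounded on compact time intervals -/
theorem sol_bdd (h : SolK ν T K u q) (hT : T' < T) :
    ∃ B : ℝ, ∀ t ∈ Icc 0 T', ∀ x i, |u t x i| ≤ B := by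
  have h1 : ∀ i, ∃ B, 0 ≤ B ∧ ∀ t ∈ Icc 0 T', ∀ x ∈ cube, |u t x i| ≤ B := fun i =>
    bdd_compact (F := fun t x => u t x i) (smooth_c h i).continuousOn hT
  choose B hB0 hB using h1
  refine ⟨∑ i, B i, fun t ht x i => ?_⟩
  have htI : t ∈ Ico 0 T := ⟨ht.1, ht.2.trans_lt hT⟩
  have h2 := per_int (h.per_u t htI) (fun i => -⌊x i⌋) x
  have h3 : (fun i => x i + ((-⌊x i⌋ : ℤ) : ℝ)) ∈ cube := by
    constructor
    · intro j
      have := Int.floor_le (x j)
      simp only [Pi.zero_apply]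
      push_cast
      linarith
    · intro j
      have := (Int.lt_floor_add_one (x j)).le
      simp only [Pi.one_apply]
      push_cast
      linarith
  rw [← h2]
  exact (hB i t ht _ h3).trans (Finset.single_le_sum (f := B) (fun j _ => hB0 j) (Finset.mem_univ i))

/-- From an upper bound for the times of existence to unbounded velocity. -/
theorem blow_of (hU : S_UNI) (hM : S_MAXB) (hH : S_H1B) (hBo : S_BOOT) {p p' δ δ' : ℝ} (hp : 0 ≤ p)
    (hp' : 0 ≤ p') (hδ : 0 ≤ δ) (hν : 0 < ν) (hK : LowE 2 p δ K) (hKS : LowS 1 p' δ' K) {v : V → V}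
    (hv : SPV v) (hdv : ∀ x, ∑ i, pd i (fun y => v y i) x = 0) (hT : 0 ≤ T)
    (h : ∀ (T₂ : ℝ) (u : ℝ → V → V) (q : ℝ → V → ℝ), SolK ν T₂ K u q → u 0 = v → T₂ ≤ T) :
    Blow ν T K v := by
  obtain ⟨u, q, hu0, hor⟩ := hM p δ K hp hK ν hν v hv hdv
  rcases hor with hall | ⟨T₁, hT1, hs, hunb⟩
  · have := h (T + 1) u q (hall (T + 1)) hu0
    linarith
  · have hbd : ∀ B : ℝ, ∃ t ∈ Ico 0 T₁, ∃ x i, B < |u t x i| := by
      by_contra hcon
      push Not at hcon
      obtain ⟨B, hB⟩ := hcon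
      exact hunb (hBo p δ ν T₁ K u q hp hν hK hs
        (hH p p' δ δ' ν T₁ K u q hp hp' hν hK hKS hs ⟨B, hB⟩) 3)
    refine ⟨T₁, hT1, h T₁ u q hs hu0, u, q, hs, hu0, hbd, fun T₂ u' q' hs' hu' => ?_⟩
    have hle : T₂ ≤ T₁ := by
      by_contra hcon
      push Not at hcon
      obtain ⟨B, hB⟩ := sol_bdd hs' hcon
      obtain ⟨t, ht, x, i, hlt⟩ := hbd B
      have h1 := hU 2 p δ ν T₁ K u' u q' q hp hδ hν.le hK (restr hs' hcon.le) hs
        (fun x => by rw [hu', hu0]) t ht x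
      have h2 := hB t ⟨ht.1, ht.2.le⟩ x i
      rw [h1] at h2
      linarith
    exact ⟨hle, hU 2 p δ ν T₂ K u' u q' q hp hδ hν.le hK hs' (restr hs hle)
      (fun x => by rw [hu', hu0])⟩

end Pool.Agent.N977.P
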