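import Pool.Agent.N977.S.Main

/-!
Navier-Stokes with a small additional term built from spatially concentrated packets.
-/

open MeasureTheory Set Filter Topology
open scoped ContDiff ComplexConjugate

namespace Pool.Agent.N977.P

open H459R3.NS Pool.Agent.N977.Q Pool.Agent.N977.S
open Pool.Agent.N977.K (SolK cmp)

/-! ### The packets -/

/-- the widths of the packets (in frequency) -/
def Jn (n : ℕ) : ℕ := max 1 (2 ^ n / (n + 2) ^ 250)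

/-- the directions `(2,0,0)` and `(2,1,0)` -/
def dv : Fin 2 → K3 := ![ev 0, ev 2]

/-- the central frequencies, `Mn 8 n = 8 * 2 ^ n` -/
def qq (e : Fin 2) (n : ℕ) : K3 := (Mn 8 n : ℤ) • dv e

/-- the triangle functions (Fourier coefficients of the Fejer kernels in `x₁`, `x₂`) -/
noncomputable def tr (J : ℕ) (l : K3) : ℝ :=
  if l 2 = 0 then max 0 (1 - |(l 0 : ℝ)| / J) * max 0 (1 - |(l 1 : ℝ)| / J) else 0

/-- the normalisation -/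
noncomputable def om (J : ℕ) : ℝ := 1 / √(2 * ∑' l : K3, tr J l ^ 2)

/-- the Fourier coefficients of the packets -/
noncomputable def Gp (e : Fin 2) (n : ℕ) (k : K3) : ℝ :=
  om (Jn n) * (tr (Jn n) (k - qq e n) + tr (Jn n) (k + qq e n))

/-- the function with the real, even Fourier coefficients `g` -/
noncomputable def Xf (g : K3 → ℝ) (x : V) : ℝ := ∑' k : K3, g k * Real.cos (2 * Real.pi * ph k x)

/-- the amplitude of the third component of `u` -/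
noncomputable def am (g : K3 → ℝ) (u : V → V) : ℝ := ∑' k : K3, g k * (fr (fun x => u x 2) k).re

/-- properties of the widths -/
structure Jp (J : ℕ → ℕ) : Prop where
  J1 : ∀ n, 1 ≤ J n
  J2 : ∀ n, 1000 * ((J n : ℝ) - 1) ≤ Mn 8 n
  mono : ∀ n, J n ≤ J (n + 1)
  three : ∀ n, J (n + 1) ≤ 3 * J n
  up : ∀ n, ((J n : ℝ) - 1) * ((n : ℝ) + 2) ^ 250 ≤ Mn 8 n
  low : ∀ n, (Mn 8 n : ℝ) ≤ 16 * (J n * ((n : ℝ) + 2) ^ 250)
  s1 : ∀ n : ℕ, Summable (fun k : ℕ => (1 / 2 : ℝ) ^ k * J (n + k)) ∧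
    ∑' k : ℕ, (1 / 2 : ℝ) ^ k * J (n + k) ≤ 10 * ((n : ℝ) + 2) ^ 2 * J n
  s2 : ∀ n m : ℕ, m ≤ n + 1 → (J m : ℝ) * ((J m : ℝ) - 1) / Mn 8 m * ((n : ℝ) + 2) ^ 250 ≤ J n
  s3 : ∀ n : ℕ, Summable (fun k : ℕ => (1 / 2 : ℝ) ^ k * (J (n + k) * ((J (n + k) : ℝ) - 1) / Mn 8 (n + k))) ∧
    (∑' k : ℕ, (1 / 2 : ℝ) ^ k * (J (n + k) * ((J (n + k) : ℝ) - 1) / Mn 8 (n + k)))
      * ((n : ℝ) + 2) ^ 248 ≤ J n

/-- Properties of a system of packets: `G e n` are the (real, even) Fourier coefficients. -/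
structure Pk (J : ℕ → ℕ) (G : Fin 2 → ℕ → K3 → ℝ) : Prop where
  J1 : ∀ n, 1 ≤ J n
  J2 : ∀ n, 1000 * ((J n : ℝ) - 1) ≤ Mn 8 n
  mono : ∀ n, J n ≤ J (n + 1)
  even : ∀ e n k, G e n (-k) = G e n k
  fin : ∀ e n, {k | G e n k ≠ 0}.Finite
  hor : ∀ e n k, G e n k ≠ 0 → k 2 = 0
  near : ∀ e n k, G e n k ≠ 0 →
    |len k ^ 2 - len (qq e n) ^ 2| ≤ 7 * (Mn 8 n * ((J n : ℝ) - 1))
  disj : ∀ e n e' n' k, G e n k ≠ 0 → G e' n' k ≠ 0 → e = e' ∧ n = n'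
  sq : ∀ e n, ∑' k, G e n k ^ 2 = 1
  l1 : ∀ e n, ∑' k, |G e n k| ≤ 3 * J n
  sup : ∀ e n k, |G e n k| ≤ 2 / J n
  L1 : ∀ e n, ∫ x in cube, |Xf (G e n) x| ≤ 3 / J n

/-! ### The perturbation -/

section op

variable (G : Fin 2 → ℕ → K3 → ℝ) (α μ : ℕ → ℝ)

/-- the coefficients of the first packets -/
noncomputable def cXp (u v : V → V) (n : ℕ) : ℝ :=
  sh (fun n => α n * (am (G 1 n) u * am (G 1 n) v)) n - α n * (am (G 1 n) u * am (G 1 n) v)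

/-- the coefficients of the second packets -/
noncomputable def cYp (u v : V → V) (n : ℕ) : ℝ :=
  α n * (am (G 1 n) u * (am (G 0 n) v - am (G 0 (n + 1)) v))
    + sh (fun n => μ n * (am (G 1 n) u * am (G 1 n) v)) n
    - μ n * (am (G 1 n) u * am (G 1 (n + 1)) v)

/-- the scalar operator -/
noncomputable def kp (u v : V → V) (x : V) : ℝ :=
  ∑' n, (cXp G α u v n * Xf (G 0 n) x + cYp G α μ u v n * Xf (G 1 n) x)

/-- The perturbation. -/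
noncomputable def KP (u v : V → V) (x : V) : V := fun i => if i = 2 then kp G α μ u v x else 0

/-- the datum: energy `1`, parallel to the third axis and independent of the third variable -/
noncomputable def dP (i : ℕ) (x : V) : V := ![0, 0, 4 / 5 * Xf (G 0 i) x + 3 / 5 * Xf (G 1 i) x]

end op

/-- Bounds of order `σ` (with a logarithm of power `p`), one of the three factors in the supremum
norm: with `‖w‖_{s,a} = Hn s a w`,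
`|∫ K(u,v)·w| ≤ δ 5^(|s₁|+|s₂|) ‖u‖_∞ ‖v‖_{s₁,a₁} ‖w‖_{s₂,a₂}` for all real `s₁ + s₂ = σ` and
`a₁, a₂ ≥ 0`, `a₁ + a₂ = p`, and the same with the supremum norm on the second or third factor. -/
structure LowS (σ p δ : ℝ) (K : (V → V) → (V → V) → V → V) : Prop where
  b1 : ∀ u v w, SPV u → SPV v → SPV w → ∀ B s₁ s₂ a₁ a₂ : ℝ, s₁ + s₂ = σ → 0 ≤ a₁ → 0 ≤ a₂ →
    a₁ + a₂ = p → (∀ x i, |u x i| ≤ B) → |∑ i, ∫ x in cube, K u v x i * w x i|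
      ≤ δ * 5 ^ (|s₁| + |s₂|) * (B * Hn s₁ a₁ v * Hn s₂ a₂ w)
  b2 : ∀ u v w, SPV u → SPV v → SPV w → ∀ B s₁ s₂ a₁ a₂ : ℝ, s₁ + s₂ = σ → 0 ≤ a₁ → 0 ≤ a₂ →
    a₁ + a₂ = p → (∀ x i, |v x i| ≤ B) → |∑ i, ∫ x in cube, K u v x i * w x i|
      ≤ δ * 5 ^ (|s₁| + |s₂|) * (Hn s₁ a₁ u * B * Hn s₂ a₂ w)
  b3 : ∀ u v w, SPV u → SPV v → SPV w → ∀ B s₁ s₂ a₁ a₂ : ℝ, s₁ + s₂ = σ → 0 ≤ a₁ → 0 ≤ a₂ →
    a₁ + a₂ = p → (∀ x i, |w x i| ≤ B) → |∑ i, ∫ x in cube, K u v x i * w x i|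
      ≤ δ * 5 ^ (|s₁| + |s₂|) * (Hn s₁ a₁ u * Hn s₂ a₂ v * B)

/-! ### The Fourier coefficients of a solution -/

/-- the Fourier coefficient without the packet part -/
noncomputable def cwp (G : Fin 2 → ℕ → K3 → ℝ) (v : V → V) (k : K3) (i : Fin 3) : ℂ :=
  fr (fun x => v x i) k
    - (if i = 2 then ((∑' n, (G 0 n k * am (G 0 n) v + G 1 n k * am (G 1 n) v) : ℝ) : ℂ) else 0)

/-- its norm -/
noncomputable def bnp (G : Fin 2 → ℕ → K3 → ℝ) (v : V → V) (k : K3) : ℝ :=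
  √(∑ i, ‖cwp G v k i‖ ^ 2)

/-- The bound for the noise in the packet `e, n`: `a`, `b` are the moduli of the Fourier
coefficients of the solution, resp. of the part without the packets. -/
noncomputable def rho (c : ℝ) (J : ℕ → ℕ) (G : Fin 2 → ℕ → K3 → ℝ) (a b : K3 → ℝ) (e : Fin 2)
    (n : ℕ) : ℝ :=
  ∑' l : K3, |G e n l| * (7 * (c * (Mn 8 n * ((J n : ℝ) - 1))) * b l + 7 * len l * cv a a l)

/-- The data of the rescaled solution: the amplitudes `x 0`, `x 1` of the cascade, the moduli `a` of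
the Fourier coefficients and the moduli `b` without the cascade. -/
structure Syp (T c E : ℝ) (J : ℕ → ℕ) (G : Fin 2 → ℕ → K3 → ℝ) (d D α μ : ℕ → ℝ)
    (x f : Fin 2 → ℕ → ℝ → ℝ) (a b : K3 → ℝ → ℝ) : Prop where
  cs : Cs T d D α μ (x 0) (x 1) (f 0) (f 1)
  c0 : 0 < c
  E0 : 0 ≤ E
  d1 : ∀ n, |d n - 4 * (c * (Mn 8 n : ℝ) ^ 2)| ≤ c * (Mn 8 n : ℝ) ^ 2 / 100
  D1 : ∀ n, |D n - 5 * (c * (Mn 8 n : ℝ) ^ 2)| ≤ c * (Mn 8 n : ℝ) ^ 2 / 100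
  a0 : ∀ k t, 0 ≤ a k t
  b0 : ∀ k t, 0 ≤ b k t
  ab : ∀ k, (∀ e n, G e n k = 0) → ∀ t ∈ Icc 0 T, a k t = b k t
  ax : ∀ e n k, G e n k ≠ 0 → ∀ t ∈ Icc 0 T,
    a k t ≤ b k t + |G e n k| * |x e n t| ∧ b k t ≤ a k t + |G e n k| * |x e n t|
  xa : ∀ e n, ∀ t ∈ Icc 0 T, |x e n t| ≤ ∑' k, |G e n k| * a k t
  xE : ∀ e n, ∀ t ∈ Icc 0 T, |x e n t| ≤ E
  aE : ∀ k, ∀ t ∈ Icc 0 T, a k t ≤ E
  dec : ∃ C, 0 ≤ C ∧ ∀ t ∈ Icc 0 T, ∀ k, (H459R3.NS.N k : ℝ) ^ 8 * a k t ≤ C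
  ac : ∀ k, ContinuousOn (a k) (Icc 0 T)
  bc : ∀ k, ContinuousOn (fun t => b k t ^ 2) (Icc 0 T)
  bd0 : ∀ k, (∀ e n, G e n k = 0) → ∀ t ∈ Ioo 0 T,
    ∃ B, |B| ≤ b k t * (7 * len k * cv (fun l => a l t) (fun l => a l t) k) ∧
      HasDerivAt (fun r => b k r ^ 2) (-(2 * (c * len k ^ 2)) * b k t ^ 2 + 2 * B) t
  bd1 : ∀ e n k, G e n k ≠ 0 → ∀ t ∈ Ioo 0 T,
    ∃ B, |B| ≤ b k t * (7 * len k * cv (fun l => a l t) (fun l => a l t) k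
        + |G e n k| * (14 * (c * (Mn 8 n * ((J n : ℝ) - 1))) * |x e n t|
          + rho c J G (fun l => a l t) (fun l => b l t) e n)) ∧
      HasDerivAt (fun r => b k r ^ 2) (-(2 * (c * len k ^ 2)) * b k t ^ 2 + 2 * B) t
  fb : ∀ e n, ∀ t ∈ Ioo 0 T, |f e n t| ≤ rho c J G (fun l => a l t) (fun l => b l t) e n

/-! ### The parameters of the induction -/

/-- the bound for the noise -/
noncomputable def nzp (J : ℕ → ℕ) (n m : ℕ) : ℝ :=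
  LL 8 n ^ 9 * (J n * (Mn 8 m * (1 / 8) ^ (m - n)))

/-- the total effect of the perturbations -/
noncomputable def vvp (J : ℕ → ℕ) (d : ℕ → ℝ) (n m : ℕ) : ℝ := e0 8 m + 4 / 3 * nzp J n m / d m

/-- the bound for the inactive levels -/
noncomputable def YYp (n m : ℕ) : ℝ := (1 / 16) ^ (m - n) / LL 8 n ^ 3

/-- the bound for all levels -/
noncomputable def Xb (E : ℝ) (n m : ℕ) : ℝ := if m < n + 2 then E else YYp n m

/-- Conditions for the parameters. -/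
structure Pxp (i : ℕ) (T E B₀ c : ℝ) (J : ℕ → ℕ) (d D α μ κ τ q ℓ s w : ℕ → ℝ) : Prop where
  P : Pr i E d D α μ κ τ q ℓ s w
  Lc : ∀ n, i ≤ n → 80 * c + 80 ≤ LL 8 n
  w1 : ∀ n, i ≤ n → ∀ m, n + 1 ≤ m → vvp J d n m ≤ w n
  wτ : ∀ n, i ≤ n → nzp J n n * τ n ≤ w n
  Y0 : ∀ n, i ≤ n → q (n + 1) + vvp J d n (n + 2) ≤ YYp n (n + 2)
  Ys : ∀ n, i ≤ n → ∀ m, n + 2 ≤ m →
    9 / 8 * α m * YYp n m ^ 2 * (1 / d (m + 1)) + vvp J d n (m + 1) ≤ YYp n (m + 1)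
  η0 : ∀ n, i ≤ n → Summable fun m => 8 ^ (m - n) * (J m * ((J m : ℝ) - 1) / Mn 8 m * Xb E n m)
  η : ∀ n, i ≤ n → 10 ^ 4 * (J n * LL 8 n ^ 4) ^ 2 * √(τ n / c)
    + 10 ^ 4 * ∑' m, 8 ^ (m - n) * (J m * ((J m : ℝ) - 1) / Mn 8 m * Xb E n m) ≤ ℓ n * J n
  G0 : ∀ n, i ≤ n → Summable fun m => 8 ^ (m - n) * (J m * Xb E n m)
  G : ∀ n, i ≤ n → (B₀ + 1) * J n + 100 * ∑' m, 8 ^ (m - n) * (J m * Xb E n m)
    < J n * LL 8 n ^ 4
  ℓs : ∀ n, ∑ j ∈ Finset.range n, ℓ (i + j) ≤ 1 / 5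
  τs : ∀ n, ∑ j ∈ Finset.range n, τ (i + j) ≤ T

end Pool.Agent.N977.P
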