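import Pool.Agent.N977.P.Ind

/-!
The induction over the stages for coefficients which vanish for the first levels.
-/

open MeasureTheory Set Filter Topology

namespace Pool.Agent.N977.P

open H459R3.NS Pool.Agent.N977.Q Pool.Agent.N977.S
open Pool.Agent.N977.K (SolK cmp)

/-- The induction over the stages; the cascade (from the level `i` on) has the coefficients `α`,
`μ` and the perturbations `f`. -/
def S_IND2 : Prop := S_DES → S_ZST → ∀ (i : ℕ) (T c E B₀ : ℝ) (J : ℕ → ℕ)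
  (G : Fin 2 → ℕ → K3 → ℝ) (d D α' μ' α μ κ τ q ℓ s w : ℕ → ℝ) (x f' f : Fin 2 → ℕ → ℝ → ℝ)
  (a b : K3 → ℝ → ℝ), Pk J G → Syp T c E J G d D α' μ' x f' a b →
  Cs T d D α μ (x 0) (x 1) (f 0) (f 1) →
  (∀ e n, i ≤ n → ∀ t ∈ Ioo 0 T,
    |f e n t| ≤ rho c J G (fun l => a l t) (fun l => b l t) e n) →
  Pxp i T E B₀ c J d D α μ κ τ q ℓ s w → 0 ≤ B₀ →
  (∀ m, i + 1 ≤ m → ∀ j, En (x 0) (x 1) m j 0 ≤ e0 8 m ^ 2) → 7 / 10 ≤ x 0 i 0 →
  s i ≤ x 1 i 0 → GG b (Mn 8 i) 0 ≤ B₀ → False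

/-- Assumptions. -/
structure Syq (i : ℕ) (T c E : ℝ) (J : ℕ → ℕ) (G : Fin 2 → ℕ → K3 → ℝ) (d D α' μ' : ℕ → ℝ)
    (f' : Fin 2 → ℕ → ℝ → ℝ) (α μ : ℕ → ℝ) (x f : Fin 2 → ℕ → ℝ → ℝ) (a b : K3 → ℝ → ℝ) :
    Prop where
  s : Syp T c E J G d D α' μ' x f' a b
  cs : Cs T d D α μ (x 0) (x 1) (f 0) (f 1)
  fb : ∀ e n, i ≤ n → ∀ t ∈ Ioo 0 T,
    |f e n t| ≤ rho c J G (fun l => a l t) (fun l => b l t) e n

variable {T c E B₀ : ℝ} {i : ℕ} {J : ℕ → ℕ} {G : Fin 2 → ℕ → K3 → ℝ}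
  {d D α' μ' α μ κ τ q ℓ s w : ℕ → ℝ} {x f' f : Fin 2 → ℕ → ℝ → ℝ} {a b : K3 → ℝ → ℝ}
  {j : ℕ} {tn ts : ℝ}

theorem Syq.dpos (h : Syq i T c E J G d D α' μ' f' α μ x f a b) (m : ℕ) : 0 < d m := by
  have h1 := abs_le.1 (h.s.d1 m)
  have hM : (0 : ℝ) < Mn 8 m := by exact_mod_cast Mn_pos (by norm_num) _
  have hc := h.s.c0
  have : 0 < c * (Mn 8 m : ℝ) ^ 2 := by positivity
  linarith [h1.1]

theorem Syq.tails (h : Syq i T c E J G d D α' μ' f' α μ x f a b)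
    (P : Pxp i T E B₀ c J d D α μ κ τ q ℓ s w)
    (h0 : ∀ m, i + 1 ≤ m → ∀ j, En (x 0) (x 1) m j 0 ≤ e0 8 m ^ 2) {n : ℕ} (hin : i ≤ n) {ts : ℝ}
    (hts : ts ≤ T) (hn : Nbp J f n ts) {m j : ℕ} (hm : n + 1 ≤ m) (hj : m ≤ j) {t : ℝ}
    (ht : t ∈ Icc 0 ts) : |x 0 j t| ≤ sg d α μ (x 1) m t + vvp J d n m ∧
      |x 1 j t| ≤ sg d α μ (x 1) m t + vvp J d n m := by
  have hL : 0 ≤ LL 8 n := by have := P.Lc n hin; have := h.s.c0; linarith
  have hd : 0 < d m := h.dpos m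
  have h1 := h.cs.tail P.P.S (m := m) (j := j) hj (e := e0 8 m) (Φ := 4 / 3 * nzp J n m) (tt := ts)
    (by unfold S.e0; positivity) (by have := nzp_nonneg (J := J) n m hL; positivity) hd hts
    (h0 m (by omega)) (fun j r hr => ?_) ht
  · unfold vvp
    exact ⟨by linarith [h1.1], by linarith [h1.2]⟩
  · have h2 : ∀ k ∈ Finset.range (j + 1), |f 0 (m + k) r| + |f 1 (m + k) r|
        ≤ nzp J n m * (1 / 4) ^ k :=
      fun k _ => by
        rw [← nzp_add (by omega : n ≤ m)]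
        exact hn (m + k) (by omega) r hr
    refine (Finset.sum_le_sum h2).trans ?_
    rw [← Finset.mul_sum]
    have := mul_le_mul_of_nonneg_left (geom4 (j + 1)) (nzp_nonneg (J := J) n m hL)
    linarith

theorem Syq.inactive (h : Syq i T c E J G d D α' μ' f' α μ x f a b)
    (P : Pxp i T E B₀ c J d D α μ κ τ q ℓ s w)
    (h0 : ∀ m, i + 1 ≤ m → ∀ j, En (x 0) (x 1) m j 0 ≤ e0 8 m ^ 2) {n : ℕ} (hin : i ≤ n) {ts : ℝ}
    (hts : ts ≤ T) (hn : Nbp J f n ts)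
    (hq : ∀ t ∈ Icc 0 ts, sg d α μ (x 1) (n + 2) t ≤ q (n + 1)) {m : ℕ} (hm : n + 2 ≤ m) :
    ∀ t ∈ Icc 0 ts, sg d α μ (x 1) m t + vvp J d n m ≤ YYp n m := by
  induction m, hm using Nat.le_induction with
  | base => intro t ht; linarith [hq t ht, P.Y0 n hin]
  | succ m hm ih =>
    intro t ht
    have hd : 0 < d (m + 1) := h.dpos (m + 1)
    have hα := P.P.S.α0 m
    have hμ := P.P.με m (by omega)
    have h1 := P.Ys n hin m hm
    have hL : 0 ≤ LL 8 n := by have := P.Lc n hin; have := h.s.c0; linarith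
    have hY : 0 ≤ YYp n m := YYp_nonneg hL
    have h2 := sg_le (d := d) (α := α) (μ := μ) h.cs.yc (m + 1) (F := 9 / 8 * α m * YYp n m ^ 2)
      (w := 1 / d (m + 1)) (t0 := ts) (by positivity) (by rw [mul_one_div, div_self hd.ne'])
      (by positivity) (fun r hr => by
        have e1 := (h.tails P h0 hin hts hn (by omega : n + 1 ≤ m) le_rfl hr).2
        have e2 := ih r hr
        have e3 : |x 1 m r| ≤ YYp n m := e1.trans e2
        have e4 : x 1 m r ^ 2 ≤ YYp n m ^ 2 := by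
          rw [← sq_abs]; exact pow_le_pow_left₀ (abs_nonneg _) e3 2
        have e5 : ff α μ (x 1) (m + 1) r = (α m + μ m) * x 1 m r ^ 2 := rfl
        rw [e5]
        have e6 : α m + μ m ≤ 9 / 8 * α m := by linarith
        exact mul_le_mul e6 e4 (sq_nonneg _) (by positivity)) ht
    linarith

/-- the invariants at the beginning of the stage `n` -/
theorem Syq.Dpos (h : Syq i T c E J G d D α' μ' f' α μ x f a b) (m : ℕ) : 0 ≤ D m := by
  have h1 := abs_le.1 (h.s.D1 m)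
  have hM : (0 : ℝ) < Mn 8 m := by exact_mod_cast Mn_pos (by norm_num) _
  have hc := h.s.c0
  have : 0 < c * (Mn 8 m : ℝ) ^ 2 := by positivity
  linarith [h1.1]

/-- the noise in terms of the norm -/
theorem noise_of' (hP : Pk J G) (hDes : S_DES) (h : Syq i T c E J G d D α' μ' f' α μ x f a b) {n m : ℕ}
    (hin : i ≤ n) (hLc : 80 * c + 80 ≤ LL 8 n) (hm : n ≤ m) {r : ℝ} (hr : r ∈ Ioo 0 T)
    (hΓ : GG a (Mn 8 n) r ≤ J n * LL 8 n ^ 4) :
    |f 0 m r| + |f 1 m r| ≤ nzp J n m := by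
  obtain ⟨-, -, -, hD3⟩ := hDes T c E J G d D α' μ' x f' a b hP h.s
  have hc := h.s.c0
  have h0 := (h.fb 0 m (hin.trans hm) r hr).trans (hD3 n m hm r (Ioo_subset_Icc_self hr) _ hΓ 0)
  have h1 := (h.fb 1 m (hin.trans hm) r hr).trans (hD3 n m hm r (Ioo_subset_Icc_self hr) _ hΓ 1)
  refine (add_le_add h0 h1).trans ?_
  unfold nzp
  have hL : 1 ≤ LL 8 n := by linarith
  have hL0 : 0 < LL 8 n := by linarith
  have hJn : (1 : ℝ) ≤ J n := by exact_mod_cast hP.J1 n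
  have hJm : (J n : ℝ) ≤ J m := by
    exact_mod_cast monotone_nat_of_le_succ hP.mono hm
  have hJm0 : (0 : ℝ) < J m := by linarith
  set L := LL 8 n with hLd
  have e1 : 40 * (J n * L ^ 4) ^ 2 / J m ≤ 40 * (J n * L ^ 8) := by
    rw [div_le_iff₀ hJm0]
    have : (J n * L ^ 8) * (J n : ℝ) ≤ (J n * L ^ 8) * J m :=
      mul_le_mul_of_nonneg_left hJm (by positivity)
    calc 40 * (J n * L ^ 4) ^ 2 = 40 * ((J n * L ^ 8) * (J n : ℝ)) := by ring
      _ ≤ 40 * ((J n * L ^ 8) * J m) := by linarith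
      _ = _ := by ring
  have e2 : 40 * c * (J n * L ^ 4) ≤ 40 * c * (J n * L ^ 8) := by
    apply mul_le_mul_of_nonneg_left _ (by positivity)
    apply mul_le_mul_of_nonneg_left _ (by positivity)
    exact pow_le_pow_right₀ hL (by norm_num)
  have e3 : 2 * (40 * c * (J n * L ^ 4) + 40 * (J n * L ^ 4) ^ 2 / J m) ≤ L ^ 9 * J n := by
    calc _ ≤ 2 * (40 * c * (J n * L ^ 8) + 40 * (J n * L ^ 8)) := by linarith
      _ = (80 * c + 80) * (J n * L ^ 8) := by ring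
      _ ≤ L * (J n * L ^ 8) := mul_le_mul_of_nonneg_right hLc (by positivity)
      _ = _ := by ring
  have e4 : (0 : ℝ) ≤ Mn 8 m * (1 / 8) ^ (m - n) := by positivity
  have e5 := mul_le_mul_of_nonneg_left e3 e4
  calc _ = Mn 8 m * (1 / 8) ^ (m - n)
        * (2 * (40 * c * (J n * L ^ 4) + 40 * (J n * L ^ 4) ^ 2 / J m)) := by ring
    _ ≤ _ := e5
    _ = _ := by ring

/-- the estimates up to the time `ts` of the stage -/
theorem Syq.up (hP : Pk J G) (hDes : S_DES) (h : Syq i T c E J G d D α' μ' f' α μ x f a b)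
    (P : Pxp i T E B₀ c J d D α μ κ τ q ℓ s w)
    (h0 : ∀ m, i + 1 ≤ m → ∀ j, En (x 0) (x 1) m j 0 ≤ e0 8 m ^ 2)
    (H : Ivp i T B₀ J d α μ τ q ℓ s x f b j tn) (hts : tn ≤ ts) (hτ : ts ≤ tn + τ (i + j))
    (hΓ : ∀ r ∈ Ico tn ts, GG a (Mn 8 (i + j)) r ≤ J (i + j) * LL 8 (i + j) ^ 4) :
    ts ≤ T ∧ Nbp J f (i + j) ts ∧
    St T E d D α μ κ τ q ℓ s w (x 0) (x 1) (f 0) (f 1) (i + j)
      (7 / 10 - ∑ k ∈ Finset.range j, ℓ (i + k)) tn ts := by
  set n := i + j with hnij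
  have hin : i ≤ n := by omega
  obtain ⟨ht0, htτ, hx, hy, hS, hn, hG⟩ := H
  have hsum : ∀ F : ℕ → ℝ, ∑ k ∈ Finset.range (j + 1), F (i + k)
      = ∑ k ∈ Finset.range j, F (i + k) + F n := fun F => Finset.sum_range_succ _ _
  have hτs := P.τs (j + 1)
  have hℓs := P.ℓs (j + 1)
  rw [hsum] at hτs hℓs
  have hT : ts ≤ T := by linarith
  have hτp := P.P.τp n hin
  have hL := P.Lc n hin
  have hc := h.s.c0
  have hL0 : 0 ≤ LL 8 n := by linarith
  -- the noise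
  have hnb : Nbp J f n ts := by
    intro m hm r hr
    rcases lt_or_ge r tn with hlt | hge
    · exact hn m hm r ⟨hr.1, hlt⟩
    · exact noise_of' hP hDes h hin hL hm ⟨hr.1, hr.2.trans_le hT⟩ (hΓ r ⟨hge, hr.2⟩)
  have hw0 := P.P.w0 n hin
  have hdn1 : 0 < d (n + 1) := P.P.d1 (n + 1)
  have htail : ∀ m, n + 1 ≤ m → ∀ j, m ≤ j → ∀ t ∈ Icc 0 ts,
      |x 0 j t| ≤ sg d α μ (x 1) m t + w n ∧ |x 1 j t| ≤ sg d α μ (x 1) m t + w n := by
    intro m hm j hj t ht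
    have e1 := h.tails P h0 hin hT hnb hm hj ht
    have e2 := P.w1 n hin m hm
    exact ⟨by linarith [e1.1], by linarith [e1.2]⟩
  have hz1 : nzp J n (n + 1) = nzp J n n * (1 / 4) := by
    have := nzp_add (J := J) (le_refl n) 1
    rwa [pow_one] at this
  have hz0 : 0 ≤ nzp J n n := nzp_nonneg n n hL0
  have hwτ := P.wτ n hin
  have hfg : ∀ m, (m = n ∨ m = n + 1) → ∀ r ∈ Ioo 0 ts,
      |f 0 m r| * τ n ≤ w n ∧ |f 1 m r| * τ n ≤ w n := by
    intro m hm r hr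
    have e1 := hnb m (by omega) r hr
    have e2 : nzp J n m ≤ nzp J n n := by
      rcases hm with rfl | rfl
      · exact le_rfl
      · rw [hz1]; linarith
    have e3 : |f 0 m r| ≤ nzp J n n := by linarith [abs_nonneg (f 1 m r)]
    have e4 : |f 1 m r| ≤ nzp J n n := by linarith [abs_nonneg (f 0 m r)]
    exact ⟨(mul_le_mul_of_nonneg_right e3 hτp.le).trans hwτ,
      (mul_le_mul_of_nonneg_right e4 hτp.le).trans hwτ⟩
  have hI : ∀ r ∈ Ioo tn ts, r ∈ Ioo 0 ts := fun r hr => ⟨ht0.trans_lt hr.1, hr.2⟩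
  have hE0 : 0 ≤ S.e0 8 (n + 1) := by unfold S.e0; positivity
  have hz3 : 0 ≤ nzp J n (n + 1) := nzp_nonneg n (n + 1) hL0
  have hv := P.w1 n hin (n + 1) le_rfl
  have hv1 : e0 8 (n + 1) ≤ w n := by
    unfold vvp at hv
    have : 0 ≤ 4 / 3 * nzp J n (n + 1) / d (n + 1) := by positivity
    linarith
  have hv2 : nzp J n (n + 1) ≤ d (n + 1) * w n := by
    unfold vvp at hv
    have e1 : 4 / 3 * nzp J n (n + 1) / d (n + 1) ≤ w n := by linarith
    rw [div_le_iff₀ hdn1] at e1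
    linarith
  refine ⟨hT, hnb, ?_⟩
  exact {
    tn0 := ht0
    tts := hts
    tsT := hT
    tsτ := hτ
    A1 := by
      have : 0 ≤ ∑ k ∈ Finset.range j, ℓ (i + k) := Finset.sum_nonneg fun k _ =>
        P.ℓ0 h.s.E0 hc h.dpos h.Dpos (by omega)
      linarith
    A2 := by linarith
    hx := hx
    hy := hy
    hS := hS
    hE := fun j t ht => ⟨h.s.xE 0 j t ⟨ht0.trans ht.1, ht.2.trans hT⟩,
      h.s.xE 1 j t ⟨ht0.trans ht.1, ht.2.trans hT⟩⟩
    t1 := fun j hj t ht => htail (n + 1) le_rfl j hj t ht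
    t2 := fun j hj t ht => htail (n + 2) (by omega) j hj t ht
    f1 := fun r hr => ⟨(hfg n (Or.inl rfl) r (hI r hr)).1, (hfg (n + 1) (Or.inr rfl) r (hI r hr)).1⟩
    g1 := fun r hr => ⟨(hfg n (Or.inl rfl) r (hI r hr)).2, (hfg (n + 1) (Or.inr rfl) r (hI r hr)).2⟩
    g2 := fun r hr => by
      have e1 := hn (n + 1) (by omega) r hr
      linarith [abs_nonneg (f 0 (n + 1) r)]
    y0 := by
      have e1 := h0 (n + 1) (by omega) 0
      unfold En at e1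
      simp only [zero_add, Finset.range_one, Finset.sum_singleton, add_zero] at e1
      refine le_trans ?_ hv1
      apply abs_le_of_sq_le_sq _ hE0
      linarith [sq_nonneg (x 0 (n + 1) 0)] }

/-- the bounds of all amplitudes and of the weighted norm -/
theorem Syq.up2 (hP : Pk J G) (hDes : S_DES) (hZst : S_ZST) (h : Syq i T c E J G d D α' μ' f' α μ x f a b)
    (P : Pxp i T E B₀ c J d D α μ κ τ q ℓ s w) (hB₀ : 0 ≤ B₀)
    (h0 : ∀ m, i + 1 ≤ m → ∀ j, En (x 0) (x 1) m j 0 ≤ e0 8 m ^ 2)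
    (H : Ivp i T B₀ J d α μ τ q ℓ s x f b j tn) (hts : tn ≤ ts) (hτ : ts ≤ tn + τ (i + j))
    (hΓ : ∀ r ∈ Ico tn ts, GG a (Mn 8 (i + j)) r ≤ J (i + j) * LL 8 (i + j) ^ 4)
    (hZ : Zf α (x 1) (i + j) tn ts ≤ af E d D α μ τ q w
      (7 / 10 - ∑ k ∈ Finset.range j, ℓ (i + k)) (i + j) * (1 - κ (i + j))) :
    (∀ e m, ∀ t ∈ Icc 0 ts, |x e m t| ≤ Xb E (i + j) m) ∧
    GG b (Mn 8 (i + j)) ts ≤ (B₀ + ∑ k ∈ Finset.range (j + 1), ℓ (i + k)) * J (i + j) := by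
  obtain ⟨hT, hnb, hSt⟩ := h.up hP hDes P h0 H hts hτ hΓ
  set n := i + j with hnij
  have hin : i ≤ n := by omega
  obtain ⟨h1, -, -⟩ := h.cs.stage P.P hin hSt hZ
  have hL : 0 ≤ LL 8 n := by have := P.Lc n hin; have := h.s.c0; linarith
  have hXb : ∀ e m, ∀ t ∈ Icc 0 ts, |x e m t| ≤ Xb E n m := by
    intro e m t ht
    unfold Xb
    split_ifs with hm
    · exact h.s.xE e m t ⟨ht.1, ht.2.trans hT⟩
    · have e1 := h.tails P h0 hin hT hnb (by omega : n + 1 ≤ m) le_rfl ht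
      have e2 := h.inactive P h0 hin hT hnb h1 (by omega : n + 2 ≤ m) t ht
      have key : ∀ e : Fin 2, |x e m t| ≤ sg d α μ (x 1) m t + vvp J d n m := by
        intro e
        fin_cases e
        · exact e1.1
        · exact e1.2
      exact (key e).trans e2
  refine ⟨hXb, ?_⟩
  have hXb0 : ∀ m, 0 ≤ Xb E n m := fun m => by
    unfold Xb
    split_ifs
    · exact h.s.E0
    · exact YYp_nonneg hL
  have h2 := hZst hDes T c E J G d D α' μ' x f' a b hP h.s n tn ts (J n * LL 8 n ^ 4) (Xb E n) H.t0 hts hT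
    (fun r hr => hΓ r ⟨hr.1.le, hr.2⟩)
    (fun e m r hr => hXb e m r ⟨H.t0.trans hr.1.le, hr.2.le⟩) hXb0 (P.η0 n hin)
  have e2 := P.η n hin
  have e3 : √((ts - tn) / c) ≤ √(τ n / c) := by
    apply Real.sqrt_le_sqrt
    exact div_le_div_of_nonneg_right (by linarith) h.s.c0.le
  have e4 : 10 ^ 4 * (J n * LL 8 n ^ 4) ^ 2 * √((ts - tn) / c)
      ≤ 10 ^ 4 * (J n * LL 8 n ^ 4) ^ 2 * √(τ n / c) :=
    mul_le_mul_of_nonneg_left e3 (by positivity)
  have hG := H.hG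
  rw [Finset.sum_range_succ, ← add_assoc, add_mul]
  linarith

/-- the weighted norm stays below the threshold -/
theorem Syq.below (hP : Pk J G) (hDes : S_DES) (hZst : S_ZST) (h : Syq i T c E J G d D α' μ' f' α μ x f a b)
    (P : Pxp i T E B₀ c J d D α μ κ τ q ℓ s w) (hB₀ : 0 ≤ B₀)
    (h0 : ∀ m, i + 1 ≤ m → ∀ j, En (x 0) (x 1) m j 0 ≤ e0 8 m ^ 2)
    (H : Ivp i T B₀ J d α μ τ q ℓ s x f b j tn) (hts : tn ≤ ts) (hτ : ts ≤ tn + τ (i + j))
    (hΓ : ∀ r ∈ Ico tn ts, GG a (Mn 8 (i + j)) r ≤ J (i + j) * LL 8 (i + j) ^ 4)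
    (hZ : Zf α (x 1) (i + j) tn ts ≤ af E d D α μ τ q w
      (7 / 10 - ∑ k ∈ Finset.range j, ℓ (i + k)) (i + j) * (1 - κ (i + j))) :
    GG a (Mn 8 (i + j)) ts < J (i + j) * LL 8 (i + j) ^ 4 := by
  obtain ⟨hT, -, -⟩ := h.up hP hDes P h0 H hts hτ hΓ
  obtain ⟨hXb, hGb⟩ := h.up2 hP hDes hZst P hB₀ h0 H hts hτ hΓ hZ
  set n := i + j with hnij
  have hin : i ≤ n := by omega
  have hts0 : ts ∈ Icc 0 T := ⟨H.t0.trans hts, hT⟩
  obtain ⟨-, -, hD2, -⟩ := hDes T c E J G d D α' μ' x f' a b hP h.s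
  have h3 := hD2 n ts hts0 (Xb E n) (fun e m => hXb e m ts ⟨hts0.1, le_rfl⟩) (P.G0 n hin)
  have h4 := P.G n hin
  have h5 := P.ℓs (j + 1)
  have hJ : (0 : ℝ) ≤ J n := Nat.cast_nonneg _
  have h6 : (B₀ + ∑ k ∈ Finset.range (j + 1), ℓ (i + k)) * J n ≤ (B₀ + 1) * J n :=
    mul_le_mul_of_nonneg_right (by linarith) hJ
  linarith

theorem Syq.below_all (hP : Pk J G) (hDes : S_DES) (hZst : S_ZST)
    (h : Syq i T c E J G d D α' μ' f' α μ x f a b)
    (P : Pxp i T E B₀ c J d D α μ κ τ q ℓ s w) (hB₀ : 0 ≤ B₀)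
    (h0 : ∀ m, i + 1 ≤ m → ∀ j, En (x 0) (x 1) m j 0 ≤ e0 8 m ^ 2)
    (H : Ivp i T B₀ J d α μ τ q ℓ s x f b j tn) (hτ : ts ≤ tn + τ (i + j))
    (hZ : Zf α (x 1) (i + j) tn ts ≤ af E d D α μ τ q w
      (7 / 10 - ∑ k ∈ Finset.range j, ℓ (i + k)) (i + j) * (1 - κ (i + j))) :
    ∀ r ∈ Icc tn ts, GG a (Mn 8 (i + j)) r < J (i + j) * LL 8 (i + j) ^ 4 := by
  intro r0 hr0
  by_contra hcon
  push Not at hcon
  have hM1 : (1 : ℝ) ≤ Mn 8 (i + j) := one_le_Mn (by norm_num) (i + j)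
  have hτs := P.τs (j + 1)
  rw [Finset.sum_range_succ] at hτs
  have hT : ts ≤ T := by linarith [H.tτ]
  have hsub : Icc tn ts ⊆ Icc 0 T := Icc_subset_Icc H.t0 hT
  obtain ⟨-, hcont, -, -⟩ := hDes T c E J G d D α' μ' x f' a b hP h.s
  set S := Icc tn ts ∩ (GG a (Mn 8 (i + j))) ⁻¹' Ici (J (i + j) * LL 8 (i + j) ^ 4) with hS
  have hcl : IsClosed S :=
    ((hcont _ hM1).mono hsub).preimage_isClosed_of_isClosed isClosed_Icc isClosed_Ici
  have hco : IsCompact S := isCompact_Icc.of_isClosed_subset hcl inter_subset_left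
  obtain ⟨t1, ht1, hmin⟩ := hco.exists_isLeast ⟨r0, hr0, hcon⟩
  have hb := h.below hP hDes hZst P hB₀ h0 H ht1.1.1 (ht1.1.2.trans hτ) (fun r hr => by
    by_contra hcon'
    push Not at hcon'
    have := hmin ⟨⟨hr.1, hr.2.le.trans ht1.1.2⟩, hcon'.le⟩
    linarith [hr.2]) ((Zf_mono h.cs.yc _ (P.P.S.α0 _).le ht1.1.2).trans hZ)
  exact absurd ht1.2 (not_le.2 hb)

theorem GGp_anti' (hP : Pk J G) (hDes : S_DES) (h : Syq i T c E J G d D α' μ' f' α μ x f a b) (n : ℕ) {t : ℝ}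
    (ht : t ∈ Icc 0 T) : GG b (Mn 8 (n + 1)) t ≤ GG b (Mn 8 n) t := by
  have hM1 : (1 : ℝ) ≤ Mn 8 n := one_le_Mn (by norm_num) n
  have hM2 : (Mn 8 n : ℝ) ≤ Mn 8 (n + 1) := by
    rw [Mn_succ]; push_cast; linarith
  obtain ⟨hs, -, -, -⟩ := hDes T c E J G d D α' μ' x f' a b hP h.s
  exact (hs _ (hM1.trans hM2) t ht).2.1.tsum_le_tsum
    (fun k => mul_le_mul_of_nonneg_right (gw_anti (by linarith) hM2 k) (h.s.b0 k t))
    (hs _ hM1 t ht).2.1

/-- the next stage -/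
theorem Syq.next (hP : Pk J G) (hDes : S_DES) (hZst : S_ZST)
    (h : Syq i T c E J G d D α' μ' f' α μ x f a b)
    (P : Pxp i T E B₀ c J d D α μ κ τ q ℓ s w) (hB₀ : 0 ≤ B₀)
    (h0 : ∀ m, i + 1 ≤ m → ∀ j, En (x 0) (x 1) m j 0 ≤ e0 8 m ^ 2)
    (H : Ivp i T B₀ J d α μ τ q ℓ s x f b j tn) :
    ∃ tc, Ivp i T B₀ J d α μ τ q ℓ s x f b (j + 1) tc := by
  set A := 7 / 10 - ∑ k ∈ Finset.range j, ℓ (i + k) with hA
  set θ := af E d D α μ τ q w A (i + j) * (1 - κ (i + j)) with hθ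
  have hin : i ≤ i + j := by omega
  have hτp := P.P.τp (i + j) hin
  have hsum : ∀ F : ℕ → ℝ, ∑ k ∈ Finset.range (j + 1), F (i + k)
      = ∑ k ∈ Finset.range j, F (i + k) + F (i + j) := fun F => Finset.sum_range_succ _ _
  have hτs := P.τs (j + 1)
  have hℓs := P.ℓs (j + 1)
  rw [hsum] at hτs hℓs
  -- the threshold is positive
  have hθ0 : 0 ≤ θ := by
    have e1 := P.P.ℓ1 (i + j) hin
    have e2 := P.P.κ1 (i + j) hin
    have e3 := P.P.κ0 (i + j) hin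
    have e4 := P.P.w0 (i + j) hin
    have e5 := P.P.q0 (i + j) hin
    have e6 := P.P.q0 (i + j + 1) (by omega)
    have e7 : 0 ≤ E * d (i + j + 1) * τ (i + j) := by
      have := P.P.E1
      have := P.P.S.d0 (i + j + 1)
      positivity
    have e8 : E * (d (i + j) + d (i + j + 1)) * τ (i + j)
        = E * d (i + j) * τ (i + j) + E * d (i + j + 1) * τ (i + j) := by ring
    rw [e8] at e1
    apply mul_nonneg _ (by linarith)
    unfold af
    linarith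
  have hup : ∀ tc, tn ≤ tc → tc ≤ tn + τ (i + j) → Zf α (x 1) (i + j) tn tc ≤ θ →
      tc ≤ T ∧ Nbp J f (i + j) tc ∧
      St T E d D α μ κ τ q ℓ s w (x 0) (x 1) (f 0) (f 1) (i + j) A tn tc ∧
      GG b (Mn 8 (i + j)) tc ≤ (B₀ + ∑ k ∈ Finset.range (j + 1), ℓ (i + k)) * J (i + j) := by
    intro tc h1 h2 h3
    have hΓ : ∀ r ∈ Ico tn tc, GG a (Mn 8 (i + j)) r ≤ J (i + j) * LL 8 (i + j) ^ 4 :=
      fun r hr => (h.below_all hP hDes hZst P hB₀ h0 H h2 h3 r ⟨hr.1, hr.2.le⟩).le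
    obtain ⟨g1, g2, g3⟩ := h.up hP hDes P h0 H h1 h2 hΓ
    exact ⟨g1, g2, g3, (h.up2 hP hDes hZst P hB₀ h0 H h1 h2 hΓ h3).2⟩
  rcases lt_or_ge (Zf α (x 1) (i + j) tn (tn + τ (i + j))) θ with hlt | hge
  · obtain ⟨-, -, hSt, -⟩ := hup (tn + τ (i + j)) (by linarith) le_rfl hlt.le
    obtain ⟨-, -, h3⟩ := h.cs.stage P.P hin hSt hlt.le
    exact absurd hlt (h3 rfl)
  · obtain ⟨tc, htc, hZ⟩ := intermediate_value_Icc (show tn ≤ tn + τ (i + j) by linarith)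
      (Zf_cont (α := α) h.cs.yc (i + j) tn).continuousOn
      ⟨by rw [Zf_zero]; exact hθ0, hge⟩
    obtain ⟨hT, hnb, hSt, hGb⟩ := hup tc htc.1 htc.2 hZ.le
    obtain ⟨h1, h2, -⟩ := h.cs.stage P.P hin hSt hZ.le
    obtain ⟨h3, h4⟩ := h2 hZ
    have htc0 : 0 ≤ tc := H.t0.trans htc.1
    have hL0 : 0 ≤ LL 8 (i + j) := by have := P.Lc (i + j) hin; have := h.s.c0; linarith
    refine ⟨tc, htc0, ?_, ?_, h4, h1, ?_, ?_⟩
    · rw [hsum]; linarith [H.tτ, htc.2]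
    · rw [hsum]
      have : A - ℓ (i + j) ≤ x 0 (i + (j + 1)) tc := h3
      linarith
    · intro m hm r hr
      have e1 := hnb m (by omega) r hr
      exact e1.trans (nzp_le_succ hP.mono (n := i + j) (by omega) hL0 (LL_mono8 _))
    · refine (GGp_anti' hP hDes h (i + j) ⟨htc0, hT⟩).trans (hGb.trans ?_)
      apply mul_le_mul_of_nonneg_left
      · exact_mod_cast hP.mono (i + j)
      · have : 0 ≤ ∑ k ∈ Finset.range (j + 1), ℓ (i + k) := Finset.sum_nonneg fun k _ =>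
          P.ℓ0 h.s.E0 h.s.c0 h.dpos h.Dpos (by omega)
        linarith

/-- The induction over the stages. -/
theorem ind2 : S_IND2 := by
  intro hDes hZst i T c E B₀ J G d D α' μ' α μ κ τ q ℓ s w x f' f a b hP hs hcs hfb P hB₀ h0 hx hy hG
  have h : Syq i T c E J G d D α' μ' f' α μ x f a b := ⟨hs, hcs, hfb⟩
  have base : Ivp i T B₀ J d α μ τ q ℓ s x f b 0 0 := by
    refine ⟨le_rfl, by simp, by simpa using hx, by simpa using hy, ?_, ?_, ?_⟩
    · intro t ht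
      have : t = 0 := le_antisymm ht.2 ht.1
      rw [this, sg_zero]
      exact P.P.q0 _ (by omega)
    · intro m hm r hr
      exact absurd hr.2 (not_lt.2 hr.1.le)
    · simp only [Finset.range_zero, Finset.sum_empty, add_zero]
      refine hG.trans (le_mul_of_one_le_right hB₀ ?_)
      exact_mod_cast hP.J1 i
  have hall : ∀ j, ∃ tn, Ivp i T B₀ J d α μ τ q ℓ s x f b j tn := by
    intro j
    induction j with
    | zero => exact ⟨0, base⟩
    | succ j ih =>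
      obtain ⟨tn, H⟩ := ih
      exact h.next hP hDes hZst P hB₀ h0 H
  obtain ⟨C, hC0, hC⟩ := h.s.dec
  obtain ⟨j, hj⟩ := pow_unbounded_of_one_lt (12 * C + 1) (one_lt_two (α := ℝ))
  obtain ⟨tn, H⟩ := hall j
  have htT : tn ≤ T := H.tτ.trans (P.τs j)
  have ht : tn ∈ Icc 0 T := ⟨H.t0, htT⟩
  have h1 := H.hx
  have h2 := P.ℓs j
  have h3 : 1 / 2 ≤ |x 0 (i + j) tn| := by linarith [le_abs_self (x 0 (i + j) tn)]
  have h4 := h.s.xa 0 (i + j) tn ht
  -- the decay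
  have hM : (2 : ℝ) ^ j ≤ Mn 8 (i + j) := by
    have e2 := two_pow_le_Mn (show 0 < 8 by norm_num) (i + j)
    have e3 : (2 : ℝ) ^ j ≤ 2 ^ (i + j) := pow_le_pow_right₀ (by norm_num) (by omega)
    linarith
  set M : ℝ := ((Mn 8 (i + j) : ℕ) : ℝ) with hMd
  have h7 : (1 : ℝ) ≤ 2 ^ j := one_le_pow₀ (by norm_num)
  have hM1 : 1 ≤ M := h7.trans hM
  have hJM : (J (i + j) : ℝ) ≤ 2 * M := by have := hP.J2 (i + j); linarith
  have hk : ∀ k, |G 0 (i + j) k| * a k tn ≤ |G 0 (i + j) k| * (C / M ^ 8) := by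
    intro k
    by_cases hk : G 0 (i + j) k = 0
    · simp [hk]
    · apply mul_le_mul_of_nonneg_left _ (abs_nonneg _)
      rw [le_div_iff₀ (by positivity)]
      have e1 := hC tn ht k
      have e2 : M ≤ H459R3.NS.N k := by
        have f1 := hP.near 0 (i + j) k hk
        have f2 := hP.J2 (i + j)
        have f3 : len (qq 0 (i + j)) ^ 2 = 4 * M ^ 2 := by
          unfold qq
          rw [len_smul, mul_pow]
          have : len (dv 0) ^ 2 = 4 := len_ev_sq.1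
          rw [this]
          ring
        rw [f3] at f1
        have f4 := (abs_le.1 f1).1
        have f5 : 7 * (M * ((J (i + j) : ℝ) - 1)) ≤ M ^ 2 := by
          have : M * (1000 * ((J (i + j) : ℝ) - 1)) ≤ M * M :=
            mul_le_mul_of_nonneg_left f2 (by linarith)
          nlinarith
        have f6 : M ^ 2 * 3 ≤ len k ^ 2 := by
          have f7 : -(7 * (M * ((J (i + j) : ℝ) - 1))) ≤ len k ^ 2 - 4 * M ^ 2 := f4
          linarith
        have f8 : len k ^ 2 ≤ 3 * (H459R3.NS.N k : ℝ) ^ 2 := by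
          rw [len_sq]
          have g1 : ∀ j, ((k j : ℤ) : ℝ) ^ 2 ≤ (H459R3.NS.N k : ℝ) ^ 2 := by
            intro j
            have g2 := (N_le_iff k (H459R3.NS.N k)).1 le_rfl j
            rw [← sq_abs]
            apply pow_le_pow_left₀ (abs_nonneg _)
            exact_mod_cast g2
          have := Finset.sum_le_sum fun j (_ : j ∈ Finset.univ) => g1 j
          simpa [Fin.sum_univ_three] using this
        have f9 : M ^ 2 ≤ (H459R3.NS.N k : ℝ) ^ 2 := by linarith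
        exact abs_le_of_sq_le_sq' f9 (Nat.cast_nonneg _) |>.2
      have e3 : M ^ 8 ≤ (H459R3.NS.N k : ℝ) ^ 8 := pow_le_pow_left₀ (by linarith) e2 8
      calc a k tn * M ^ 8 ≤ a k tn * (H459R3.NS.N k : ℝ) ^ 8 :=
            mul_le_mul_of_nonneg_left e3 (h.s.a0 k tn)
        _ ≤ C := by rw [mul_comm]; exact e1
  have hfin : {k | |G 0 (i + j) k| ≠ 0}.Finite := by
    simpa using hP.fin 0 (i + j)
  have hs1 : Summable fun k => |G 0 (i + j) k| * (C / M ^ 8) :=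
    (summable_of_ne_finset_zero (f := fun k => |G 0 (i + j) k|) (s := hfin.toFinset) (fun k hk => by simpa using hk)).mul_right _
  have hs2 : Summable fun k => |G 0 (i + j) k| * a k tn :=
    Summable.of_nonneg_of_le (fun k => mul_nonneg (abs_nonneg _) (h.s.a0 k tn)) hk hs1
  have h5 := hs2.tsum_le_tsum hk hs1
  rw [tsum_mul_right] at h5
  have h6 := hP.l1 0 (i + j)
  have h8 : (∑' k, |G 0 (i + j) k|) * (C / M ^ 8) ≤ (6 * M) * (C / M ^ 8) :=
    mul_le_mul_of_nonneg_right (by linarith) (by positivity)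
  have h9 : (6 * M) * (C / M ^ 8) ≤ 6 * C / M := by
    have : (6 * M) * (C / M ^ 8) = 6 * C / M ^ 7 := by field_simp
    rw [this]
    apply div_le_div_of_nonneg_left (by positivity) (by positivity)
    exact le_self_pow₀ hM1 (by norm_num)
  have h10 : 1 / 2 ≤ 6 * C / M := by linarith
  rw [le_div_iff₀ (by positivity)] at h10
  have h11 : 12 * C + 1 < M := hj.trans_le hM
  linarith

end Pool.Agent.N977.P
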