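import Pool.Agent.N977.P.Main
import Pool.Agent.N977.P.Ind2

/-!
Assembly: stable finite time breakdown for the Navier-Stokes equations with a small additional term
which is built from packets and acts only on high frequencies.
-/

open MeasureTheory Set Filter Topology
open scoped ContDiff ComplexConjugate

namespace Pool.Agent.N977.P

open H459R3.NS Pool.Agent.N977.Q Pool.Agent.N977.S
open Pool.Agent.N977.K (SolK cmp)

/-- the sequence without the first entries -/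
noncomputable def tc (n₀ : ℕ) (α : ℕ → ℝ) (n : ℕ) : ℝ := if n < n₀ then 0 else α n

theorem tc_lt {n₀ n : ℕ} (h : n < n₀) (α : ℕ → ℝ) : tc n₀ α n = 0 := if_pos h

theorem tc_ge {n₀ n : ℕ} (h : n₀ ≤ n) (α : ℕ → ℝ) : tc n₀ α n = α n := if_neg (by omega)

theorem tc_abs (n₀ n : ℕ) (α : ℕ → ℝ) : |tc n₀ α n| ≤ |α n| := by
  unfold tc
  split_ifs
  · simp
  · exact le_rfl

theorem tc_nonneg {α : ℕ → ℝ} (h : ∀ n, 0 ≤ α n) (n₀ n : ℕ) : 0 ≤ tc n₀ α n := by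
  unfold tc
  split_ifs
  · exact le_rfl
  · exact h n

/-- the perturbations of the cascade with the full coefficients -/
noncomputable def ft (α' μ' α μ : ℕ → ℝ) (x f : Fin 2 → ℕ → ℝ → ℝ) (e : Fin 2) (n : ℕ) (t : ℝ) : ℝ :=
  if e = 0 then
    f 0 n t + ((gf α' (x 1) n t - α' n * x 1 n t ^ 2) - (gf α (x 1) n t - α n * x 1 n t ^ 2))
  else
    f 1 n t + ((α' n * x 1 n t * (x 0 n t - x 0 (n + 1) t) + gf μ' (x 1) n t
        - μ' n * x 1 n t * x 1 (n + 1) t)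
      - (α n * x 1 n t * (x 0 n t - x 0 (n + 1) t) + gf μ (x 1) n t
        - μ n * x 1 n t * x 1 (n + 1) t))

theorem cs_full {T : ℝ} {d D α' μ' α μ : ℕ → ℝ} {x f : Fin 2 → ℕ → ℝ → ℝ} {n₀ : ℕ}
    (h : Cs T d D α' μ' (x 0) (x 1) (f 0) (f 1)) (hα : ∀ n, n₀ ≤ n → α' n = α n)
    (hμ : ∀ n, n₀ ≤ n → μ' n = μ n) :
    Cs T d D α μ (x 0) (x 1) (ft α' μ' α μ x f 0) (ft α' μ' α μ x f 1) := by
  refine ⟨h.xc, h.yc, fun n t ht => ?_, fun n t ht => ?_, fun ε hε => ?_⟩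
  · have h1 := h.xd n t ht
    convert h1 using 1
    unfold ft
    rw [if_pos rfl]
    ring
  · have h1 := h.yd n t ht
    convert h1 using 1
    unfold ft
    rw [if_neg (by decide)]
    ring
  · obtain ⟨J, hJ⟩ := h.dec ε hε
    refine ⟨max J n₀, fun n hn t ht => ?_⟩
    have h1 := hJ n ((le_max_left _ _).trans hn) t ht
    rwa [hα n ((le_max_right _ _).trans hn), hμ n ((le_max_right _ _).trans hn)] at h1

theorem ft_eq {α' μ' α μ : ℕ → ℝ} (x f : Fin 2 → ℕ → ℝ → ℝ) {n₀ : ℕ}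
    (hα : ∀ n, n₀ ≤ n → α' n = α n) (hμ : ∀ n, n₀ ≤ n → μ' n = μ n) (e : Fin 2) {n : ℕ}
    (hn : n₀ + 1 ≤ n) (t : ℝ) : ft α' μ' α μ x f e n t = f e n t := by
  obtain ⟨m, rfl⟩ : ∃ m, n = m + 1 := ⟨n - 1, by omega⟩
  have e1 : gf α' (x 1) (m + 1) t = gf α (x 1) (m + 1) t := by
    show α' m * x 1 m t ^ 2 = α m * x 1 m t ^ 2
    rw [hα m (by omega)]
  have e2 : gf μ' (x 1) (m + 1) t = gf μ (x 1) (m + 1) t := by
    show μ' m * x 1 m t ^ 2 = μ m * x 1 m t ^ 2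
    rw [hμ m (by omega)]
  unfold ft
  rw [e1, e2, hα (m + 1) (by omega), hμ (m + 1) (by omega)]
  fin_cases e <;> simp

/-- **Stable finite time breakdown**; the operator acts only on high frequencies. -/
theorem mainP2 (hJ : S_JN) (hPk1 : S_PK1) (hPk2 : S_PK2) (hOp : S_OP) (hLow : S_LOW) (hSup : S_SUP)
    (hA : S_MODA) (hB : S_MODB) (hExt : S_EXT) (hDes : S_DES) (hZst : S_ZST) (hPar : S_PAR)
    (hIni : S_INI) {p δ : ℝ} (hp : 1 < p) (hδ : 0 < δ) (n₀ : ℕ) :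
    ∃ α μ : ℕ → ℝ, Ga 8 α μ ∧ (∀ n, n < n₀ → α n = 0 ∧ μ n = 0) ∧
      LowE 2 p δ (KP Gp α μ) ∧ LowS 1 (p + 250) δ (KP Gp α μ) ∧
      ∀ ν ε T R : ℝ, 0 < ν → 0 < ε → ε ≤ 1 → 0 < T → ∃ j₀ : ℕ, ∀ j : ℕ, j₀ ≤ j →
        ∀ (T₂ : ℝ) (u : ℝ → V → V) (q : ℝ → V → ℝ), SolK ν T₂ (KP Gp α μ) u q →
          Wn (fun x => u 0 x - ε • dP Gp j x) ≤ R → T₂ ≤ T := by
  have hPk := pk_of hJ hPk1 hPk2
  have hJ' : Jp Jn := hJ
  set p₀ := min p 2 with hp₀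
  have hp1 : 1 < p₀ := lt_min hp (by norm_num)
  have hp2 : p₀ ≤ 2 := min_le_right _ _
  set θ := min 1 (δ / (18 * (16 * 2 ^ 250))) with hθd
  have hθ : 0 < θ := lt_min one_pos (by positivity)
  have hθ1 : θ ≤ 1 := min_le_left _ _
  have hθδ' : 18 * (θ * (16 * 2 ^ 250)) ≤ δ := by
    have h1 : θ ≤ δ / (18 * (16 * 2 ^ 250)) := min_le_right _ _
    rw [le_div_iff₀ (by positivity)] at h1
    linarith
  have hθδ : 18 * θ ≤ δ := by
    have : θ ≤ θ * (16 * 2 ^ 250) := le_mul_of_one_le_right hθ.le (by norm_num)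
    linarith
  set α₁ := al θ 2 p₀ 8 with hα
  set μ₁ := mu θ 2 p₀ 8 with hμ
  set α := tc n₀ α₁ with hαt
  set μ := tc n₀ μ₁ with hμt
  have hG₁ : Ga 8 α₁ μ₁ := ga8 hθ hθ1 hp2
  have hG : Ga 8 α μ := ⟨hG₁.N0, fun n => (tc_abs n₀ n α₁).trans (hG₁.a3 n),
    fun n => (tc_abs n₀ n μ₁).trans (hG₁.m3 n)⟩
  have hαa : ∀ n, |α₁ n| = θ * ((Mn 8 n : ℝ) ^ (2 : ℝ) * Real.log (Mn 8 n) ^ p₀) := by
    intro n
    rw [abs_of_pos (al_pos hθ (by norm_num) n)]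
    unfold al
    rw [Real.rpow_two, mul_assoc]
  have hμa : ∀ n, |μ₁ n| ≤ |α₁ n| := by
    intro n
    have h4 := mu_pos (b := 2) (p := p₀) hθ (by norm_num : 3 ≤ 8) n
    have h5 := mu_le_al (b := 2) (p := p₀) hθ (by norm_num : 3 ≤ 8) n
    rw [abs_of_pos h4]
    exact h5.trans (le_abs_self _)
  have hαb₁ : ∀ n, |α₁ n| ≤ θ * ((Mn 8 n : ℝ) ^ (2 : ℝ) * Real.log (Mn 8 n) ^ p) := by
    intro n
    rw [hαa]
    apply mul_le_mul_of_nonneg_left _ hθ.le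
    apply mul_le_mul_of_nonneg_left _ (by positivity)
    exact Real.rpow_le_rpow_of_exponent_le (one_le_L (by norm_num) n) (min_le_left _ _)
  have hαs₁ : ∀ n, |α₁ n| ≤ (θ * (16 * 2 ^ 250))
      * (Jn n * ((Mn 8 n : ℝ) ^ (1 : ℝ) * Real.log (Mn 8 n) ^ (p + 250))) := by
    intro n
    rw [hαa]
    exact al_sup hJ' hθ.le (min_le_left _ _) n
  have hαb := fun n => (tc_abs n₀ n α₁).trans (hαb₁ n)
  have hαs := fun n => (tc_abs n₀ n α₁).trans (hαs₁ n)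
  have hμa' : ∀ n, |μ n| ≤ |α₁ n| := fun n => (tc_abs n₀ n μ₁).trans (hμa n)
  have hK : LowE 2 p δ (KP Gp α μ) := hLow hOp Jn Gp α μ hPk hG θ 2 p δ hθ.le hαb
    (fun n => (hμa' n).trans (hαb₁ n)) hθδ
  have hKS : LowS 1 (p + 250) δ (KP Gp α μ) := hSup hOp Jn Gp α μ hPk hG (θ * (16 * 2 ^ 250)) 1
    (p + 250) δ (by positivity) hαs (fun n => (hμa' n).trans (hαs₁ n)) hθδ'
  refine ⟨α, μ, hG, fun n hn => ⟨tc_lt hn _, tc_lt hn _⟩, hK, hKS, ?_⟩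
  intro ν ε T R hν hε hε1 hT
  set c := (2 * Real.pi) ^ 2 * ν with hc
  have hc0 : 0 < c := by positivity
  set R' := |R| with hR'
  have hR0 : 0 ≤ R' := abs_nonneg R
  set E : ℝ := 2 + 2 * (R' / ε) with hE
  have hRε : 0 ≤ R' / ε := by positivity
  obtain ⟨N₀, hN₀⟩ := hPar hJ (ε * θ) p₀ c E (13 * (R' / ε)) T
    (by positivity) (by nlinarith) hp1 hp2 hc0 (by linarith) (by positivity) hT
  obtain ⟨j₁, hj₁⟩ := pow_unbounded_of_one_lt (20 * (R' / ε) + N₀) (one_lt_two (α := ℝ))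
  refine ⟨max j₁ (n₀ + 1), fun i hj' T₂ u q hs hW => ?_⟩
  have hj : j₁ ≤ i := (le_max_left _ _).trans hj'
  have hjn : n₀ + 1 ≤ i := (le_max_right _ _).trans hj'
  by_contra hcon
  push Not at hcon
  have hbig : 20 * (R' / ε) + N₀ ≤ Mn 8 i := by
    have h1 : (2 : ℝ) ^ j₁ ≤ 2 ^ i := pow_le_pow_right₀ (by norm_num) hj
    have h2 := two_pow_le_Mn (show 0 < 8 by norm_num) i
    linarith
  have hN8 : (0 : ℕ) < 8 := by norm_num
  have hNi : N₀ ≤ Mn 8 i := by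
    have : (N₀ : ℝ) ≤ Mn 8 i := by linarith
    exact_mod_cast this
  obtain ⟨hI1, hI2, hI3, hI4, hI5, hI6, hI7, hI8⟩ := hIni Jn Gp hPk
  have h0T : (0 : ℝ) ∈ Ico 0 T₂ := ⟨le_rfl, hT.trans hcon⟩
  have h0T' : (0 : ℝ) ∈ Icc 0 T := ⟨le_rfl, hT.le⟩
  have hu0 : SPV (u 0) := sol_spv hs h0T
  -- the perturbation of the datum
  set W : V → V := fun x => u 0 x - ε • dP Gp i x with hWd
  have hWs : SPV W := by
    refine sp_spv fun k => ?_
    have e : (fun x => W x k) = fun x => u 0 x k - ε * dP Gp i x k := rfl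
    rw [e]
    exact (spv_sp hu0 k).sub (sp_cmul (spv_sp (hI1 i) k) ε)
  have hWR : Wn W ≤ R' := hW.trans (le_abs_self R)
  have hvW : u 0 = fun x => W x + ε • dP Gp i x := by
    funext x; simp only [hWd]; abel
  obtain ⟨hG0, hEn⟩ := hI8 i W (u 0) ε R' hWs hε hWR hvW
  -- the energy
  have hEE : √(EE 0 (u 0)) ≤ ε * E := by
    have h2 : √(EE 0 (u 0)) ≤ 2 * ε + 2 * R' := by
      apply Real.sqrt_le_iff.2
      have : 0 ≤ ε * R' := by positivity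
      exact ⟨by positivity, by nlinarith [sq_nonneg ε, sq_nonneg R']⟩
    have h3 : ε * E = 2 * ε + 2 * R' := by rw [hE]; field_simp
    rw [h3]; exact h2
  have hα0 : ∀ n, 0 ≤ α n := tc_nonneg (fun n => (al_pos hθ (by norm_num) n).le) n₀
  have hμ0 : ∀ n, 0 ≤ μ n := tc_nonneg (fun n => (mu_pos hθ (by norm_num) n).le) n₀
  obtain ⟨f, hS⟩ := hExt hOp hA hB Jn Gp α μ hPk hG hα0 hμ0 p δ ν T T₂ ε E c u q hK hν hT hcon hε
    hε1 hc (by linarith) hEE hs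
  obtain ⟨κ, τ, qq, ℓ, s, w, P⟩ := hN₀ i hNi _ _ hS.d1 hS.D1
  have eα : ∀ n, n₀ ≤ n → ε * α n = al (ε * θ) 2 p₀ 8 n := by
    intro n hn
    rw [hαt, tc_ge hn, hα]; unfold al; ring
  have eμ : ∀ n, n₀ ≤ n → ε * μ n = mu (ε * θ) 2 p₀ 8 n := by
    intro n hn
    rw [hμt, tc_ge hn, hμ]; unfold mu al; ring
  have hcs := cs_full (x := fun e n t => am (Gp e n) (u (cl T t)) / ε) (f := f) (n₀ := n₀)
    (α := al (ε * θ) 2 p₀ 8) (μ := mu (ε * θ) 2 p₀ 8) hS.cs eα eμ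
  -- the initial amplitudes
  have hx0 : ∀ e m, am (Gp e m) (u (cl T 0)) / ε = am (Gp e m) W / ε + am (Gp e m) (dP Gp i) := by
    intro e m
    rw [cl_eq h0T', hvW, hI6 e m W (dP Gp i) hWs (hI1 i) ε]
    field_simp
  have hM1 : ∀ m, (1 : ℝ) ≤ Mn 8 m := fun m => one_le_Mn hN8 m
  have hbound : ∀ e m, i ≤ m → |am (Gp e m) W / ε| ≤ 1 / 10 * (1 / (Mn 8 m : ℝ) ^ 5) := by
    intro e m hm
    have h1 : (Mn 8 m : ℝ) ^ 6 * |am (Gp e m) W / ε| ≤ 2 * (R' / ε) := by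
      rw [abs_div, abs_of_pos hε, ← mul_div_assoc, ← mul_div_assoc]
      exact div_le_div_of_nonneg_right (hI7 W hWs R' hWR e m) hε.le
    have h2 : (Mn 8 i : ℝ) ≤ Mn 8 m := by
      unfold Mn; push_cast
      exact mul_le_mul_of_nonneg_left (pow_le_pow_right₀ (by norm_num) hm) (by norm_num)
    have h3 : 20 * (R' / ε) ≤ Mn 8 m := by
      have : (0 : ℝ) ≤ N₀ := Nat.cast_nonneg _
      linarith
    have h4 : (0 : ℝ) < Mn 8 m := by linarith [hM1 m]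
    rw [← mul_one_div, ← div_eq_mul_one_div, ← div_eq_mul_one_div, le_div_iff₀ (by positivity)]
    have h5 : (Mn 8 m : ℝ) * (|am (Gp e m) W / ε| * (Mn 8 m : ℝ) ^ 5) ≤ Mn 8 m * (1 / 10) := by
      calc _ = (Mn 8 m : ℝ) ^ 6 * |am (Gp e m) W / ε| := by ring
        _ ≤ 2 * (R' / ε) := h1
        _ ≤ _ := by linarith
    exact le_of_mul_le_mul_left h5 h4
  have hfin := ind2 hDes hZst i T c E (13 * (R' / ε)) Jn Gp _ _ _ _ _ _ κ τ qq ℓ s w _ f _ _ _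
    hPk hS hcs (fun e n hn t ht => by
      rw [ft_eq _ f eα eμ e (by omega) t]
      exact hS.fb e n t ht) P
    (by positivity) (fun m hm j => En_init hN8 (fun k hk => by
      show |am (Gp 0 k) (u (cl T 0)) / ε| ≤ _
      rw [hx0 0 k, hI4, if_neg (by omega), add_zero]
      refine (hbound 0 k (by omega)).trans ?_
      have h4 : (0 : ℝ) ≤ 1 / (Mn 8 k : ℝ) ^ 5 := by positivity
      linarith) (fun k hk => by
      show |am (Gp 1 k) (u (cl T 0)) / ε| ≤ _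
      rw [hx0 1 k, hI5, if_neg (by omega), add_zero]
      refine (hbound 1 k (by omega)).trans ?_
      have h4 : (0 : ℝ) ≤ 1 / (Mn 8 k : ℝ) ^ 5 := by positivity
      linarith) j) ?_ ?_ ?_
  · exact hfin
  · show 7 / 10 ≤ am (Gp 0 i) (u (cl T 0)) / ε
    rw [hx0 0 i, hI4, if_pos rfl]
    have h1 := hbound 0 i le_rfl
    have h2 : 1 / (Mn 8 i : ℝ) ^ 5 ≤ 1 := by
      rw [div_le_one (by have := hM1 i; positivity)]
      exact one_le_pow₀ (hM1 i)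
    have h3 := neg_abs_le (am (Gp 0 i) W / ε)
    linarith
  · show s i ≤ am (Gp 1 i) (u (cl T 0)) / ε
    rw [hx0 1 i, hI5, if_pos rfl]
    have h1 := hbound 1 i le_rfl
    have h2 : 1 / (Mn 8 i : ℝ) ^ 5 ≤ 1 := by
      rw [div_le_one (by have := hM1 i; positivity)]
      exact one_le_pow₀ (hM1 i)
    have h3 := neg_abs_le (am (Gp 1 i) W / ε)
    have h4 := P.P.s1 i le_rfl
    linarith
  · have := hG0 (Mn 8 i) (hM1 i)
    have e : 13 * R' / ε = 13 * (R' / ε) := by ring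
    rw [e] at this
    exact this

end Pool.Agent.N977.P
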