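import Pool.Agent.N977.P.Stm

/-!
Statement: the operator acts only on high frequencies.
-/

open MeasureTheory Set Filter Topology
open scoped ContDiff ComplexConjugate

namespace Pool.Agent.N977.P

open H459R3.NS Pool.Agent.N977.Q Pool.Agent.N977.S
open Pool.Agent.N977.K (SolK cmp)

/-- `K` acts only on the frequencies `|k| ≥ N`: `K(u, v)` depends only on the Fourier coefficients
of `u`, `v` at frequencies `|k| ≥ N`, and has only Fourier coefficients at such frequencies. -/
structure Hi (N : ℝ) (K : (V → V) → (V → V) → V → V) : Prop where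
  inp : ∀ u u' v v' : V → V, SPV u → SPV u' → SPV v → SPV v' →
    (∀ (k : K3) (i : Fin 3), N ≤ len k → fr (fun x => u x i) k = fr (fun x => u' x i) k) →
    (∀ (k : K3) (i : Fin 3), N ≤ len k → fr (fun x => v x i) k = fr (fun x => v' x i) k) →
    K u v = K u' v'
  out : ∀ u v : V → V, SPV u → SPV v → ∀ (k : K3) (i : Fin 3), len k < N →
    fr (fun x => K u v x i) k = 0

/-- The operator acts only on high frequencies, if its first coefficients are `0`. (The frequencies
of the packets of the level `n` satisfy `|k| ≥ Mn 8 n`, see `Pk.near`, `Pk.J2`; for `out` use the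
formula for the Fourier coefficients in `S_OP`, `Pool.Agent.N79.NSP.op`.) -/
def S_HI : Prop := S_OP → ∀ (J : ℕ → ℕ) (G : Fin 2 → ℕ → K3 → ℝ) (α μ : ℕ → ℝ), Pk J G →
  Ga 8 α μ → ∀ n₀ : ℕ, (∀ n, n < n₀ → α n = 0 ∧ μ n = 0) → Hi (Mn 8 n₀) (KP G α μ)

end Pool.Agent.N977.P
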