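import Pool.Agent.N977.P.Full
import Pool.Agent.N977.P.Main2
import Pool.Agent.N977.P.Stm4
import Pool.Agent.N977.P.Blow
import Pool.Agent.N724.NSP.Par2
import Pool.Agent.N776.NSP.Jn
import Pool.Agent.N300.NSP.SH
import Pool.Agent.N433.NSP.Uni
import Pool.Agent.N353.NSP.Maxb
import Pool.Agent.N655.NSP.Boot
import Pool.Agent.N391.NSP.Thr
import Pool.Agent.N457.NSP.H1B
import Pool.Agent.N319.LE.Main

/-!
The final theorems.
-/

open MeasureTheory Set Filter Topology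
open scoped ContDiff

namespace Pool.Agent.N977.P

open H459R3.NS Pool.Agent.N977.Q Pool.Agent.N977.S
open Pool.Agent.N977.K (SolK)

/-- `K` commutes with the translations in the direction of the third axis. -/
def Sh3 (K : (V → V) → (V → V) → V → V) : Prop :=
  ∀ (a : ℝ) (u v : V → V), SPV u → SPV v →
    K (fun x => u (x + Pi.single 2 a)) (fun x => v (x + Pi.single 2 a))
      = fun x => K u v (x + Pi.single 2 a)

variable {ν T p δ : ℝ} {K : (V → V) → (V → V) → V → V} {u : ℝ → V → V} {q : ℝ → V → ℝ}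

/-- translates of solutions -/
theorem sol_sh3 (hK : Sh3 K) (hs : SolK ν T K u q) (r : ℝ) :
    SolK ν T K (fun t x => u t (x + Pi.single 2 r)) (fun t x => q t (x + Pi.single 2 r)) := by
  set a : V := Pi.single 2 r with ha
  have hpd : ∀ (f : V → ℝ) (j : Fin 3), pd j (fun y => f (y + a)) = fun x => pd j f (x + a) := by
    intro f j
    funext x
    unfold pd
    rw [fderiv_comp_add_right]
  have hsub : ContDiff ℝ ∞ (fun z : ℝ × V => ((z.1, z.2 + a) : ℝ × V)) := by fun_prop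
  refine ⟨?_, ?_, fun t ht i x => ?_, fun t ht i x => ?_, fun t ht x => ?_, fun t ht x i => ?_⟩
  · exact hs.smooth_u.comp hsub.contDiffOn fun z hz => ⟨hz.1, mem_univ _⟩
  · exact hs.smooth_p.comp hsub.contDiffOn fun z hz => ⟨hz.1, mem_univ _⟩
  · rw [add_right_comm, hs.per_u t ht i]
  · rw [add_right_comm, hs.per_p t ht i]
  · have h1 : ∀ i, pd i (fun y => u t (y + a) i) x = pd i (fun y => u t y i) (x + a) := fun i =>
      congrFun (hpd (fun y => u t y i) i) x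
    simp_rw [h1]
    exact hs.divfree t ht (x + a)
  · have h1 : ∀ j, pd j (fun y => u t (y + a) i) = fun x => pd j (fun y => u t y i) (x + a) :=
      fun j => hpd (fun y => u t y i) j
    have h2 : ∀ j, pd j (fun x => pd j (fun y => u t y i) (x + a))
        = fun x => pd j (pd j (fun y => u t y i)) (x + a) := fun j =>
      hpd (pd j (fun y => u t y i)) j
    have h3 : pd i (fun x => q t (x + a)) x = pd i (q t) (x + a) := congrFun (hpd (q t) i) x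
    have hu := sol_spv hs (Ioo_subset_Ico_self ht)
    have h4 : K (fun x => u t (x + a)) (fun x => u t (x + a)) x i = K (u t) (u t) (x + a) i :=
      congrFun (congrFun (hK r _ _ hu hu) x) i
    simp_rw [h1, h2, h3]
    rw [h4]
    exact hs.momentum t ht (x + a) i

/-- **Global solutions** for `p ≤ 1` and data which do not depend on the third variable. -/
theorem glob (hp : 0 ≤ p) (hp1 : p ≤ 1) (hδ : 0 ≤ δ) (hK : LowE 2 p δ K) (hsh : Sh3 K)
    (hν : 0 < ν) {v : V → V} (hv : SPV v) (hdv : ∀ x, ∑ i, pd i (fun y => v y i) x = 0)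
    (hi : ∀ (a : ℝ) (x : V), v (x + Pi.single 2 a) = v x) :
    ∃ (u : ℝ → V → V) (q : ℝ → V → ℝ), u 0 = v ∧ ∀ T, SolK ν T K u q := by
  obtain ⟨u, q, hu0, hor⟩ := Pool.Agent.N353.NSP.maxb p δ K hp hK ν hν v hv hdv
  rcases hor with hall | ⟨T₁, hT1, hs, hunb⟩
  · exact ⟨u, q, hu0, hall⟩
  · exfalso
    have hind : ∀ t ∈ Ico 0 T₁, Ind3 (u t) := fun t ht a x =>
      Pool.Agent.N433.NSP.uni 2 p δ ν T₁ K (fun t x => u t (x + Pi.single 2 a)) u
        (fun t x => q t (x + Pi.single 2 a)) q hp hδ hν.le hK (sol_sh3 hsh hs a) hs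
        (fun x => by show u 0 (x + Pi.single 2 a) = u 0 x; rw [hu0]; exact hi a x) t ht x
    exact hunb (Pool.Agent.N391.NSP.thr p δ ν T₁ K u q hp hp1 hδ hν hK hs hind 3)

theorem blow_fin {p' δ' : ℝ} (hp : 0 ≤ p) (hp' : 0 ≤ p') (hδ : 0 ≤ δ) (hν : 0 < ν)
    (hK : LowE 2 p δ K) (hKS : LowS 1 p' δ' K) {v : V → V} (hv : SPV v)
    (hdv : ∀ x, ∑ i, pd i (fun y => v y i) x = 0) (hT : 0 ≤ T)
    (h : ∀ (T₂ : ℝ) (u : ℝ → V → V) (q : ℝ → V → ℝ), SolK ν T₂ K u q → u 0 = v → T₂ ≤ T) :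
    Blow ν T K v :=
  blow_of Pool.Agent.N433.NSP.uni Pool.Agent.N353.NSP.maxb Pool.Agent.N457.NSP.h1b
    Pool.Agent.N655.NSP.boot hp hp' hδ hν hK hKS hv hdv hT h

theorem Hi.mono {N N' : ℝ} (h : Hi N' K) (hN : N ≤ N') : Hi N K :=
  ⟨fun u u' v v' hu hu' hv hv' h1 h2 => h.inp u u' v v' hu hu' hv hv'
    (fun k i hk => h1 k i (hN.trans hk)) (fun k i hk => h2 k i (hN.trans hk)),
    fun u v hu hv k i hk => h.out u v hu hv k i (hk.trans_le hN)⟩

theorem pd_mul3 {f : V → ℝ} (hf : SP f) (r : ℝ) (j : Fin 3) (x : V) :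
    pd j (fun y => r * f y) x = r * pd j f x := by
  unfold pd
  rw [fderiv_const_mul (hf.diff x)]
  rfl

/-- the packets do not depend on the third variable -/
theorem dP_ind {J : ℕ → ℕ} {G : Fin 2 → ℕ → K3 → ℝ} (hP : Pk J G) (j : ℕ) (a : ℝ) (x : V) :
    dP G j (x + Pi.single 2 a) = dP G j x := by
  unfold dP
  rw [Pool.Agent.N300.NSP.Xf_single (fun k hk => hP.hor 0 j k hk),
    Pool.Agent.N300.NSP.Xf_single (fun k hk => hP.hor 1 j k hk)]

/-- the general form -/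
theorem stable_of {p' : ℝ} (hp : 0 ≤ p) (hp' : 0 ≤ p') (hδ : 0 ≤ δ) (hK : LowE 2 p δ K)
    (hKS : LowS 1 p' δ K) {D : ℕ → V → V} (hI1 : ∀ j, SPV (D j))
    (hI2 : ∀ j x, ∑ i, pd i (fun y => D j y i) x = 0)
    (hI3 : ∀ j, ∑ i, ∫ x in cube, D j x i ^ 2 = 1) (hI4 : ∀ j x, D j x 0 = 0 ∧ D j x 1 = 0)
    (hI5 : ∀ (j : ℕ) (a : ℝ) (x : V), D j (x + Pi.single 2 a) = D j x)
    (hb : ∀ ν ε T R : ℝ, 0 < ν → 0 < ε → ε ≤ 1 → 0 < T → ∃ j₀ : ℕ, ∀ j : ℕ, j₀ ≤ j →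
        ∀ (T₂ : ℝ) (u : ℝ → V → V) (q : ℝ → V → ℝ), SolK ν T₂ K u q →
          Wn (fun x => u 0 x - ε • D j x) ≤ R → T₂ ≤ T)
    (U : V → V) (hU : SPV U) (ν ε T R : ℝ) (hν : 0 < ν) (hε : 0 < ε) (hT : 0 < T) :
    ∃ w : V → V, SPV w ∧ (∀ x, ∑ i, pd i (fun y => w y i) x = 0) ∧
      (∑ i, ∫ x in cube, w x i ^ 2 ≤ ε ^ 2) ∧ (∀ x, w x 0 = 0 ∧ w x 1 = 0) ∧
      (∀ (a : ℝ) (x : V), w (x + Pi.single 2 a) = w x) ∧
      ∀ v : V → V, SPV v → (∀ x, ∑ i, pd i (fun y => v y i) x = 0) →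
        Wn (fun x => v x - (U x + w x)) ≤ R → Blow ν T K v := by
  set e := min ε 1 with he
  have he0 : 0 < e := lt_min hε one_pos
  have he1 : e ≤ 1 := min_le_right _ _
  have heε : e ≤ ε := min_le_left _ _
  obtain ⟨j, hj⟩ := general hI1 hb hU R hν he0 he1 hT
  have hws : SPV (fun x => e • D j x) := sp_spv fun i => sp_cmul (spv_sp (hI1 j) i) e
  refine ⟨fun x => e • D j x, hws, ?_, ?_, ?_, ?_, ?_⟩
  · intro x
    have h1 : ∀ i, pd i (fun y => (e • D j y) i) x = e * pd i (fun y => D j y i) x :=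
      fun i => pd_mul3 (spv_sp (hI1 j) i) e i x
    simp_rw [h1]
    rw [← Finset.mul_sum, hI2 j x, mul_zero]
  · have h1 : ∀ i, ∫ x in cube, (e • D j x) i ^ 2 = e ^ 2 * ∫ x in cube, D j x i ^ 2 := by
      intro i
      rw [← integral_const_mul]
      refine integral_congr_ae (Eventually.of_forall fun x => ?_)
      show (e * D j x i) ^ 2 = _
      ring
    simp_rw [h1]
    rw [← Finset.mul_sum, hI3 j, mul_one]
    exact pow_le_pow_left₀ he0.le heε 2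
  · intro x
    constructor
    · show e * D j x 0 = 0
      rw [(hI4 j x).1, mul_zero]
    · show e * D j x 1 = 0
      rw [(hI4 j x).2, mul_zero]
  · intro a x
    show e • D j (x + Pi.single 2 a) = e • D j x
    rw [hI5]
  · intro v hv hdv hW
    exact blow_fin hp hp' hδ hν hK hKS hv hdv hT.le (hj j le_rfl v hW)

theorem dP_z (G : Fin 2 → ℕ → K3 → ℝ) (j : ℕ) (x : V) : dP G j x 0 = 0 ∧ dP G j x 1 = 0 :=
  ⟨rfl, rfl⟩

theorem pkJ : Pk Jn Gp :=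
  pk_of Pool.Agent.N776.NSP.jn Pool.Agent.N34.NSP.pk1 Pool.Agent.N441.NSP.pk2

theorem main3 {p δ : ℝ} (hp : 1 < p) (hδ : 0 < δ) (n₀ : ℕ) :
    ∃ α μ : ℕ → ℝ, Ga 8 α μ ∧ (∀ n, n < n₀ → α n = 0 ∧ μ n = 0) ∧
      LowE 2 p δ (KP Gp α μ) ∧ LowS 1 (p + 250) δ (KP Gp α μ) ∧
      ∀ ν ε T R : ℝ, 0 < ν → 0 < ε → ε ≤ 1 → 0 < T → ∃ j₀ : ℕ, ∀ j : ℕ, j₀ ≤ j →
        ∀ (T₂ : ℝ) (u : ℝ → V → V) (q : ℝ → V → ℝ), SolK ν T₂ (KP Gp α μ) u q →
          Wn (fun x => u 0 x - ε • dP Gp j x) ≤ R → T₂ ≤ T :=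
  mainP2 Pool.Agent.N776.NSP.jn Pool.Agent.N34.NSP.pk1
    Pool.Agent.N441.NSP.pk2 Pool.Agent.N79.NSP.op Pool.Agent.N835.NSP.low Pool.Agent.N42.NSP.sup
    Pool.Agent.N27.NSP.Moda.moda Pool.Agent.N456.NSP.modb Pool.Agent.N136.NSP.ext
    Pool.Agent.N738.NSP.des Pool.Agent.N930.NSP.zst Pool.Agent.N724.NSP.par
    Pool.Agent.N61.NSP.ini hp hδ n₀

end Pool.Agent.N977.P
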