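import Pool.Agent.N977.P.Fin
import Pool.Agent.N335.NSP.Hi

/-!
The stable breakdown, final form.
-/

open MeasureTheory Set Filter Topology
open scoped ContDiff

namespace Pool.Agent.N977.P

open H459R3.NS Pool.Agent.N977.Q Pool.Agent.N977.S
open Pool.Agent.N977.K (SolK)

theorem dP_facts : (∀ j, SPV (dP Gp j)) ∧ (∀ j x, ∑ i, pd i (fun y => dP Gp j y i) x = 0) ∧
    (∀ j, ∑ i, ∫ x in cube, dP Gp j x i ^ 2 = 1) := by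
  obtain ⟨h1, h2, h3, -⟩ := Pool.Agent.N61.NSP.ini Jn Gp pkJ
  exact ⟨h1, h2, h3⟩

theorem main4 {p δ : ℝ} (hp : 1 < p) (hδ : 0 < δ) (N : ℝ) :
    ∃ K : (V → V) → (V → V) → V → V, LowE 2 p δ K ∧ LowS 1 (p + 250) δ K ∧ Sh3 K ∧ Hi N K ∧
      ∀ ν ε T R : ℝ, 0 < ν → 0 < ε → ε ≤ 1 → 0 < T → ∃ j₀ : ℕ, ∀ j : ℕ, j₀ ≤ j →
        ∀ (T₂ : ℝ) (u : ℝ → V → V) (q : ℝ → V → ℝ), SolK ν T₂ K u q →
          Wn (fun x => u 0 x - ε • dP Gp j x) ≤ R → T₂ ≤ T := by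
  obtain ⟨n₀, hn₀⟩ := pow_unbounded_of_one_lt N (one_lt_two (α := ℝ))
  have hNn : N ≤ Mn 8 n₀ := hn₀.le.trans (two_pow_le_Mn (show 0 < 8 by norm_num) n₀)
  obtain ⟨α, μ, hG, h0, hK, hKS, hb⟩ := main3 hp hδ n₀
  have h1 : Sh3 (KP Gp α μ) := fun a u v hu hv =>
    (Pool.Agent.N300.NSP.sh Jn Gp α μ pkJ hG u v hu hv).2 a
  have h2 : Hi (Mn 8 n₀) (KP Gp α μ) :=
    Pool.Agent.N335.NSP.hi Pool.Agent.N79.NSP.op Jn Gp α μ pkJ hG n₀ h0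
  exact ⟨KP Gp α μ, hK, hKS, h1, h2.mono hNn, hb⟩

/-- **Stable breakdown** for `p > 1`. -/
theorem stable {p δ : ℝ} (hp : 1 < p) (hδ : 0 < δ) (N : ℝ) :
    ∃ K : (V → V) → (V → V) → V → V, LowE 2 p δ K ∧ LowS 1 (p + 250) δ K ∧ Sh3 K ∧ Hi N K ∧
      ∀ U : V → V, SPV U → ∀ ν ε T R : ℝ, 0 < ν → 0 < ε → 0 < T →
        ∃ w : V → V, SPV w ∧ (∀ x, ∑ i, pd i (fun y => w y i) x = 0) ∧
          (∑ i, ∫ x in cube, w x i ^ 2 ≤ ε ^ 2) ∧ (∀ x, w x 0 = 0 ∧ w x 1 = 0) ∧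
          (∀ (a : ℝ) (x : V), w (x + Pi.single 2 a) = w x) ∧
          ∀ v : V → V, SPV v → (∀ x, ∑ i, pd i (fun y => v y i) x = 0) →
            Wn (fun x => v x - (U x + w x)) ≤ R → Blow ν T K v := by
  obtain ⟨K, hK, hKS, h1, h2, hb⟩ := main4 hp hδ N
  obtain ⟨d1, d2, d3⟩ := dP_facts
  have d4 := dP_z Gp
  have d5 := dP_ind pkJ
  generalize dP Gp = D at *
  have hp0 : 0 ≤ p := by linarith
  have hp1 : 0 ≤ p + 250 := by linarith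
  exact ⟨K, hK, hKS, h1, h2, fun U hU ν ε T R hν hε hT =>
    stable_of hp0 hp1 hδ.le hK hKS d1 d2 d3 d4 d5 hb U hU ν ε T R hν hε hT⟩

end Pool.Agent.N977.P
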