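import Pool.Agent.N977.P.Stm

/-!
Statements of further steps.
-/

open MeasureTheory Set Filter Topology
open scoped ContDiff ComplexConjugate

namespace Pool.Agent.N977.P

open H459R3.NS Pool.Agent.N977.Q Pool.Agent.N977.S
open Pool.Agent.N977.K (SolK cmp)

/-- No breakdown for `p ≤ 1` and solutions which do not depend on the third variable. (Compare
`Q.YY_bdd'`, `Q.reg_ind` in `Q/Tw4.lean`, with the class `Q.Low` instead of `LowE`.) -/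
def S_THR : Prop := ∀ (p δ ν T : ℝ) (K : (V → V) → (V → V) → V → V) (u : ℝ → V → V)
  (q : ℝ → V → ℝ), 0 ≤ p → p ≤ 1 → 0 ≤ δ → 0 < ν → LowE 2 p δ K → SolK ν T K u q →
  (∀ t ∈ Ico 0 T, Ind3 (u t)) → ∀ s : ℝ, ∃ B, ∀ t ∈ Ico 0 T, Hn s 0 (u t) ≤ B

/-- Invariance under translations in the third variable. -/
def S_SH : Prop := ∀ (J : ℕ → ℕ) (G : Fin 2 → ℕ → K3 → ℝ) (α μ : ℕ → ℝ), Pk J G →
  Ga 8 α μ → ∀ u v, SPV u → SPV v → Ind3 (KP G α μ u v) ∧ ∀ a : ℝ,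
    KP G α μ (fun x => u (x + Pi.single 2 a)) (fun x => v (x + Pi.single 2 a))
      = fun x => KP G α μ u v (x + Pi.single 2 a)

/-- Uniqueness. (Compare `Q.sol_unique'` in `Q/UniqL.lean`, with the class `Q.Low` instead of
`LowE`.) -/
def S_UNI : Prop := ∀ (σ p δ ν T : ℝ) (K : (V → V) → (V → V) → V → V) (u v : ℝ → V → V)
  (q r : ℝ → V → ℝ), 0 ≤ p → 0 ≤ δ → 0 ≤ ν → LowE σ p δ K → SolK ν T K u q → SolK ν T K v r →
  (∀ x, u 0 x = v 0 x) → ∀ t ∈ Ico 0 T, ∀ x, u t x = v t x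

/-- The maximal solution, if there is an upper bound `T` for the times of existence. (Replace the
pressures `q t x` by `q t x - q t 0` and glue the solutions on `[0, T')`.) -/
def S_MAX : Prop := S_UNI → ∀ (σ p δ ν T : ℝ) (K : (V → V) → (V → V) → V → V) (v : V → V),
  0 ≤ p → 0 ≤ δ → 0 ≤ ν → LowE σ p δ K →
  (∃ T' : ℝ, 0 < T' ∧ ∃ u q, SolK ν T' K u q ∧ u 0 = v) →
  (∀ T' u q, SolK ν T' K u q → u 0 = v → T' ≤ T) →
  ∃ T' : ℝ, 0 < T' ∧ T' ≤ T ∧ (∃ u q, SolK ν T' K u q ∧ u 0 = v) ∧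
    ∀ T'' u q, SolK ν T'' K u q → u 0 = v → T'' ≤ T'

end Pool.Agent.N977.P
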