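import Pool.Agent.N977.P.Main
import Pool.Agent.N977.P.Stm2
import Pool.Agent.N34.NSP.PK1
import Pool.Agent.N441.NSP.PK2
import Pool.Agent.N79.NSP.Op
import Pool.Agent.N835.NSP.Low
import Pool.Agent.N42.NSP.Sup
import Pool.Agent.N27.NSP.Moda
import Pool.Agent.N456.NSP.Modb
import Pool.Agent.N136.NSP.Ext
import Pool.Agent.N738.NSP.Des
import Pool.Agent.N930.NSP.Zst
import Pool.Agent.N61.NSP.Ini

/-!
The complete assembly (the leaves are due to helpers 27, 34, 42, 61, 79, 136, 441, 456, 738, 776,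
835, 930, 937).
-/

open MeasureTheory Set Filter Topology

namespace Pool.Agent.N977.P

open H459R3.NS Pool.Agent.N977.Q Pool.Agent.N977.S
open Pool.Agent.N977.K (SolK)

/-- the triangle inequality -/
theorem un_sub_le {u v : V → V} (hu : SPV u) (hv : SPV v) (k : K3) :
    un (fun x => u x - v x) k ≤ un u k + un v k := by
  have e : ∀ i, fr (fun x => u x i - v x i) k = fr (fun x => u x i) k - fr (fun x => v x i) k :=
    fun i => fr_sub (spv_sp hu i).cont (spv_sp hv i).cont k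
  have h1 : un (fun x => u x - v x) k ^ 2 ≤ (un u k + un v k) ^ 2 := by
    have e2 : un (fun x => u x - v x) k ^ 2
        = ∑ i, ‖fr (fun x => u x i) k - fr (fun x => v x i) k‖ ^ 2 := by
      rw [un_sq]
      refine Finset.sum_congr rfl fun i _ => ?_
      rw [← e i]
      rfl
    rw [e2]
    have h2 : ∀ i, ‖fr (fun x => u x i) k - fr (fun x => v x i) k‖ ^ 2
        ≤ ‖fr (fun x => u x i) k‖ ^ 2 + ‖fr (fun x => v x i) k‖ ^ 2
          + 2 * (‖fr (fun x => u x i) k‖ * ‖fr (fun x => v x i) k‖) := by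
      intro i
      have h3 := norm_sub_le (fr (fun x => u x i) k) (fr (fun x => v x i) k)
      have h4 := pow_le_pow_left₀ (norm_nonneg _) h3 2
      linarith [add_sq ‖fr (fun x => u x i) k‖ ‖fr (fun x => v x i) k‖]
    have h5 : ∑ i, ‖fr (fun x => u x i) k‖ * ‖fr (fun x => v x i) k‖ ≤ un u k * un v k := by
      have := Finset.sum_mul_sq_le_sq_mul_sq Finset.univ (fun i => ‖fr (fun x => u x i) k‖)
        (fun i => ‖fr (fun x => v x i) k‖)
      rw [← un_sq, ← un_sq, ← mul_pow] at this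
      exact abs_le_of_sq_le_sq' this (mul_nonneg (un_nonneg u k) (un_nonneg v k)) |>.2
    refine (Finset.sum_le_sum fun i _ => h2 i).trans ?_
    rw [Finset.sum_add_distrib, Finset.sum_add_distrib, ← Finset.mul_sum, ← un_sq, ← un_sq]
    nlinarith
  exact abs_le_of_sq_le_sq' h1 (add_nonneg (un_nonneg u k) (un_nonneg v k)) |>.2

theorem Wn_sub_le {u v : V → V} (hu : SPV u) (hv : SPV v) :
    Wn (fun x => u x - v x) ≤ Wn u + Wn v := by
  have hs : SPV (fun x => u x - v x) := sp_spv fun i => (spv_sp hu i).sub (spv_sp hv i)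
  unfold Wn
  rw [← (Wn_summable hu).tsum_add (Wn_summable hv)]
  refine (Wn_summable hs).tsum_le_tsum (fun k => ?_) ((Wn_summable hu).add (Wn_summable hv))
  have h1 := mul_le_mul_of_nonneg_left (un_sub_le hu hv k)
    (pow_nonneg (by linarith [len_nonneg k] : 0 ≤ 1 + len k) 6)
  rw [← mul_add]
  exact h1

/-- a general base point -/
theorem general {K : (V → V) → (V → V) → V → V} {D : ℕ → V → V} (hD : ∀ j, SPV (D j))
    (h : ∀ ν ε T R : ℝ, 0 < ν → 0 < ε → ε ≤ 1 → 0 < T → ∃ j₀ : ℕ, ∀ j : ℕ, j₀ ≤ j →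
        ∀ (T₂ : ℝ) (u : ℝ → V → V) (q : ℝ → V → ℝ), SolK ν T₂ K u q →
          Wn (fun x => u 0 x - ε • D j x) ≤ R → T₂ ≤ T)
    {U : V → V} (hU : SPV U) {ν ε T : ℝ} (R : ℝ) (hν : 0 < ν) (hε : 0 < ε) (hε1 : ε ≤ 1)
    (hT : 0 < T) : ∃ j₀ : ℕ, ∀ j : ℕ, j₀ ≤ j → ∀ v : V → V,
      Wn (fun x => v x - (U x + ε • D j x)) ≤ R →
      ∀ (T₂ : ℝ) (u : ℝ → V → V) (q : ℝ → V → ℝ), SolK ν T₂ K u q → u 0 = v → T₂ ≤ T := by
  obtain ⟨j₀, hj₀⟩ := h ν ε T (R + Wn U) hν hε hε1 hT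
  refine ⟨j₀, fun j hj v hR T₂ u q hs huv => ?_⟩
  subst huv
  by_contra hcon
  push Not at hcon
  have h0 : (0 : ℝ) ∈ Ico 0 T₂ := ⟨le_rfl, hT.trans hcon⟩
  have hu := sol_spv hs h0
  have hd : SPV (fun x => ε • D j x) := by
    refine sp_spv fun i => ?_
    exact sp_cmul (spv_sp (hD j) i) ε
  have h1 : SPV (fun x => u 0 x - (U x + ε • D j x)) :=
    sp_spv fun i => (spv_sp hu i).sub ((spv_sp hU i).add (spv_sp hd i))
  have hnU : SPV (fun x => (-1 : ℝ) • U x) := by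
    refine sp_spv fun i => ?_
    exact sp_cmul (spv_sp hU i) (-1)
  have h2 := Wn_sub_le h1 hnU
  have e1 : (fun x => u 0 x - (U x + ε • D j x) - (-1 : ℝ) • U x)
      = fun x => u 0 x - ε • D j x := by
    funext x
    rw [neg_one_smul]
    abel
  have e2 : Wn (fun x => (-1 : ℝ) • U x) = Wn U := by
    unfold Wn
    refine tsum_congr fun k => ?_
    congr 1
    unfold un
    congr 1
    refine Finset.sum_congr rfl fun i _ => ?_
    have e3 : fr (fun x => ((-1 : ℝ) • U x) i) k = (-1 : ℝ) * fr (fun x => U x i) k :=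
      fr_smul (-1) (fun x => U x i) k
    rw [e3]
    simp
  rw [e1, e2] at h2
  have := hj₀ j hj T₂ u q hs (h2.trans (by linarith))
  linarith

/-- **Stable finite time breakdown** (with the widths and the parameters as hypotheses). -/
theorem full (hJ : S_JN) (hPar : S_PAR) {p δ : ℝ} (hp : 1 < p) (hδ : 0 < δ) :
    ∃ K : (V → V) → (V → V) → V → V, LowE 2 p δ K ∧ LowS 1 (p + 250) δ K ∧
      ∀ U : V → V, SPV U → ∀ ν ε T R : ℝ, 0 < ν → 0 < ε → ε ≤ 1 → 0 < T →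
        ∃ j₀ : ℕ, ∀ j : ℕ, j₀ ≤ j → ∀ v : V → V,
          Wn (fun x => v x - (U x + ε • dP Gp j x)) ≤ R →
          ∀ (T₂ : ℝ) (u : ℝ → V → V) (q : ℝ → V → ℝ), SolK ν T₂ K u q → u 0 = v → T₂ ≤ T := by
  obtain ⟨K, h1, h2, h3⟩ := mainP hJ Pool.Agent.N34.NSP.pk1 Pool.Agent.N441.NSP.pk2
    Pool.Agent.N79.NSP.op Pool.Agent.N835.NSP.low Pool.Agent.N42.NSP.sup
    Pool.Agent.N27.NSP.Moda.moda Pool.Agent.N456.NSP.modb Pool.Agent.N136.NSP.ext
    Pool.Agent.N738.NSP.des Pool.Agent.N930.NSP.zst hPar Pool.Agent.N61.NSP.ini hp hδ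
  have hPk := pk_of hJ Pool.Agent.N34.NSP.pk1 Pool.Agent.N441.NSP.pk2
  exact ⟨K, h1, h2, fun U hU ν ε T R hν hε hε1 hT =>
    general (fun j => (Pool.Agent.N61.NSP.ini Jn Gp hPk).1 j) h3 hU R hν hε hε1 hT⟩

end Pool.Agent.N977.P
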