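import Pool.Agent.N977.P.Ind

/-!
Assembly: stable finite time breakdown for the Navier-Stokes equations with a small additional term
which is built from packets.
-/

open MeasureTheory Set Filter Topology
open scoped ContDiff ComplexConjugate

namespace Pool.Agent.N977.P

open H459R3.NS Pool.Agent.N977.Q Pool.Agent.N977.S
open Pool.Agent.N977.K (SolK cmp)

/-- the packets form a packet system -/
theorem pk_of (hJ : S_JN) (h1 : S_PK1) (h2 : S_PK2) : Pk Jn Gp := by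
  obtain ⟨a1, a2, a3, a4, a5, a6, a7, a8⟩ := h1 hJ
  have hJ' : Jp Jn := hJ
  exact ⟨hJ'.J1, hJ'.J2, hJ'.mono, a1, a2, a3, a4, a5, a6, a7, a8, h2 hJ⟩

theorem LL_eq (n : ℕ) : S.LL 8 n = ((n : ℝ) + 3) * Real.log 2 := by
  unfold S.LL Mn
  push_cast
  rw [show (8 : ℝ) * 2 ^ n = 2 ^ (n + 3) by rw [pow_add]; norm_num; ring, Real.log_pow]
  push_cast; ring

theorem two_mul_LL (n : ℕ) : (n : ℝ) + 2 ≤ 2 * S.LL 8 n := by
  rw [LL_eq]
  have h1 : (1 : ℝ) / 2 ≤ Real.log 2 := by linarith [Real.log_two_gt_d9]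
  have h2 : (0 : ℝ) ≤ (n : ℝ) + 3 := by positivity
  nlinarith

/-- the coefficient bound for the estimates with the supremum norm -/
theorem al_sup (hJ : Jp Jn) {θ p₀ p : ℝ} (hθ : 0 ≤ θ) (hp : p₀ ≤ p) (n : ℕ) :
    θ * ((Mn 8 n : ℝ) ^ (2 : ℝ) * Real.log (Mn 8 n) ^ p₀)
      ≤ (θ * (16 * 2 ^ 250)) * (Jn n * ((Mn 8 n : ℝ) ^ (1 : ℝ) * Real.log (Mn 8 n) ^ (p + 250))) := by
  have hL1 : 1 ≤ Real.log (Mn 8 n) := one_le_L (by norm_num) n
  have hL0 : 0 < Real.log (Mn 8 n) := by linarith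
  have hM0 : (0 : ℝ) < Mn 8 n := by exact_mod_cast Mn_pos (by norm_num) _
  have h1 := hJ.low n
  have h2 : ((n : ℝ) + 2) ^ 250 ≤ 2 ^ 250 * Real.log (Mn 8 n) ^ 250 := by
    rw [← mul_pow]
    exact pow_le_pow_left₀ (by positivity) (two_mul_LL n) 250
  have h3 : (Mn 8 n : ℝ) ≤ (16 * 2 ^ 250) * (Jn n * Real.log (Mn 8 n) ^ 250) := by
    calc (Mn 8 n : ℝ) ≤ 16 * (Jn n * ((n : ℝ) + 2) ^ 250) := h1
      _ ≤ 16 * (Jn n * (2 ^ 250 * Real.log (Mn 8 n) ^ 250)) := by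
          apply mul_le_mul_of_nonneg_left _ (by norm_num)
          exact mul_le_mul_of_nonneg_left h2 (Nat.cast_nonneg _)
      _ = _ := by ring
  have h4 : Real.log (Mn 8 n) ^ p₀ ≤ Real.log (Mn 8 n) ^ p :=
    Real.rpow_le_rpow_of_exponent_le hL1 hp
  have h5 : Real.log (Mn 8 n) ^ (p + 250) = Real.log (Mn 8 n) ^ p * Real.log (Mn 8 n) ^ 250 := by
    rw [Real.rpow_add hL0]
    congr 1
    exact_mod_cast Real.rpow_natCast (Real.log (Mn 8 n)) 250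
  have h6 : 0 ≤ Real.log (Mn 8 n) ^ p₀ := Real.rpow_nonneg hL0.le _
  have h7 : 0 ≤ Real.log (Mn 8 n) ^ p := Real.rpow_nonneg hL0.le _
  rw [Real.rpow_two, Real.rpow_one, h5]
  set L := Real.log (Mn 8 n) with hL
  set M := (Mn 8 n : ℝ) with hM
  calc θ * (M ^ 2 * L ^ p₀) ≤ θ * (M ^ 2 * L ^ p) := by
        apply mul_le_mul_of_nonneg_left _ hθ
        exact mul_le_mul_of_nonneg_left h4 (by positivity)
    _ = θ * (M * L ^ p * M) := by ring
    _ ≤ θ * (M * L ^ p * ((16 * 2 ^ 250) * (Jn n * L ^ 250))) := by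
        apply mul_le_mul_of_nonneg_left _ hθ
        exact mul_le_mul_of_nonneg_left h3 (by positivity)
    _ = _ := by ring

theorem ga8 {θ p : ℝ} (hθ : 0 < θ) (hθ1 : θ ≤ 1) (hp : p ≤ 2) :
    Ga 8 (al θ 2 p 8) (mu θ 2 p 8) := by
  have h3 : ∀ n, |al θ 2 p 8 n| ≤ 1 * (Mn 8 n : ℝ) ^ 3 := by
    intro n
    have h1 := al_le (b := 2) hθ1 hp (by norm_num : 3 ≤ 8) n
    have h2 : (1 : ℝ) ≤ Mn 8 n := one_le_Mn (by norm_num) n
    rw [abs_of_pos (al_pos hθ (by norm_num) n), one_mul]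
    refine h1.trans ?_
    calc (Mn 8 n : ℝ) ^ 2 * Real.log (Mn 8 n) ^ 2 ≤ (Mn 8 n : ℝ) ^ 2 * Mn 8 n :=
          mul_le_mul_of_nonneg_left (log_sq_le h2) (by positivity)
      _ = _ := by ring
  refine ⟨by norm_num, h3, fun n => ?_⟩
  have h4 := mu_pos (b := 2) (p := p) hθ (by norm_num : 3 ≤ 8) n
  have h5 := mu_le_al (b := 2) (p := p) hθ (by norm_num : 3 ≤ 8) n
  rw [abs_of_pos h4]
  exact (h5.trans (le_abs_self _)).trans (h3 n)

/-- **Stable finite time breakdown**. -/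
theorem mainP (hJ : S_JN) (hPk1 : S_PK1) (hPk2 : S_PK2) (hOp : S_OP) (hLow : S_LOW) (hSup : S_SUP)
    (hA : S_MODA) (hB : S_MODB) (hExt : S_EXT) (hDes : S_DES) (hZst : S_ZST) (hPar : S_PAR)
    (hIni : S_INI) {p δ : ℝ} (hp : 1 < p) (hδ : 0 < δ) :
    ∃ K : (V → V) → (V → V) → V → V, LowE 2 p δ K ∧ LowS 1 (p + 250) δ K ∧
      ∀ ν ε T R : ℝ, 0 < ν → 0 < ε → ε ≤ 1 → 0 < T → ∃ j₀ : ℕ, ∀ j : ℕ, j₀ ≤ j →
        ∀ (T₂ : ℝ) (u : ℝ → V → V) (q : ℝ → V → ℝ), SolK ν T₂ K u q →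
          Wn (fun x => u 0 x - ε • dP Gp j x) ≤ R → T₂ ≤ T := by
  have hPk := pk_of hJ hPk1 hPk2
  have hJ' : Jp Jn := hJ
  set p₀ := min p 2 with hp₀
  have hp1 : 1 < p₀ := lt_min hp (by norm_num)
  have hp2 : p₀ ≤ 2 := min_le_right _ _
  set θ := min 1 (δ / (18 * (16 * 2 ^ 250))) with hθd
  have hθ : 0 < θ := lt_min one_pos (by positivity)
  have hθ1 : θ ≤ 1 := min_le_left _ _
  have hθδ' : 18 * (θ * (16 * 2 ^ 250)) ≤ δ := by
    have h1 : θ ≤ δ / (18 * (16 * 2 ^ 250)) := min_le_right _ _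
    rw [le_div_iff₀ (by positivity)] at h1
    linarith
  have hθδ : 18 * θ ≤ δ := by
    have : θ ≤ θ * (16 * 2 ^ 250) := le_mul_of_one_le_right hθ.le (by norm_num)
    linarith
  set α := al θ 2 p₀ 8 with hα
  set μ := mu θ 2 p₀ 8 with hμ
  have hG : Ga 8 α μ := ga8 hθ hθ1 hp2
  have hαa : ∀ n, |α n| = θ * ((Mn 8 n : ℝ) ^ (2 : ℝ) * Real.log (Mn 8 n) ^ p₀) := by
    intro n
    rw [abs_of_pos (al_pos hθ (by norm_num) n)]
    unfold al
    rw [Real.rpow_two, mul_assoc]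
  have hμa : ∀ n, |μ n| ≤ |α n| := by
    intro n
    have h4 := mu_pos (b := 2) (p := p₀) hθ (by norm_num : 3 ≤ 8) n
    have h5 := mu_le_al (b := 2) (p := p₀) hθ (by norm_num : 3 ≤ 8) n
    rw [abs_of_pos h4]
    exact h5.trans (le_abs_self _)
  have hαb : ∀ n, |α n| ≤ θ * ((Mn 8 n : ℝ) ^ (2 : ℝ) * Real.log (Mn 8 n) ^ p) := by
    intro n
    rw [hαa]
    apply mul_le_mul_of_nonneg_left _ hθ.le
    apply mul_le_mul_of_nonneg_left _ (by positivity)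
    exact Real.rpow_le_rpow_of_exponent_le (one_le_L (by norm_num) n) (min_le_left _ _)
  have hαs : ∀ n, |α n| ≤ (θ * (16 * 2 ^ 250))
      * (Jn n * ((Mn 8 n : ℝ) ^ (1 : ℝ) * Real.log (Mn 8 n) ^ (p + 250))) := by
    intro n
    rw [hαa]
    exact al_sup hJ' hθ.le (min_le_left _ _) n
  have hK : LowE 2 p δ (KP Gp α μ) := hLow hOp Jn Gp α μ hPk hG θ 2 p δ hθ.le hαb
    (fun n => (hμa n).trans (hαb n)) hθδ
  have hKS : LowS 1 (p + 250) δ (KP Gp α μ) := hSup hOp Jn Gp α μ hPk hG (θ * (16 * 2 ^ 250)) 1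
    (p + 250) δ (by positivity) hαs (fun n => (hμa n).trans (hαs n)) hθδ'
  refine ⟨KP Gp α μ, hK, hKS, ?_⟩
  intro ν ε T R hν hε hε1 hT
  set c := (2 * Real.pi) ^ 2 * ν with hc
  have hc0 : 0 < c := by positivity
  set R' := |R| with hR'
  have hR0 : 0 ≤ R' := abs_nonneg R
  set E : ℝ := 2 + 2 * (R' / ε) with hE
  have hRε : 0 ≤ R' / ε := by positivity
  obtain ⟨N₀, hN₀⟩ := hPar hJ (ε * θ) p₀ c E (13 * (R' / ε)) T
    (by positivity) (by nlinarith) hp1 hp2 hc0 (by linarith) (by positivity) hT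
  obtain ⟨j₁, hj₁⟩ := pow_unbounded_of_one_lt (20 * (R' / ε) + N₀) (one_lt_two (α := ℝ))
  refine ⟨j₁, fun i hj T₂ u q hs hW => ?_⟩
  by_contra hcon
  push Not at hcon
  have hbig : 20 * (R' / ε) + N₀ ≤ Mn 8 i := by
    have h1 : (2 : ℝ) ^ j₁ ≤ 2 ^ i := pow_le_pow_right₀ (by norm_num) hj
    have h2 := two_pow_le_Mn (show 0 < 8 by norm_num) i
    linarith
  have hN8 : (0 : ℕ) < 8 := by norm_num
  have hNi : N₀ ≤ Mn 8 i := by
    have : (N₀ : ℝ) ≤ Mn 8 i := by linarith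
    exact_mod_cast this
  obtain ⟨hI1, hI2, hI3, hI4, hI5, hI6, hI7, hI8⟩ := hIni Jn Gp hPk
  have h0T : (0 : ℝ) ∈ Ico 0 T₂ := ⟨le_rfl, hT.trans hcon⟩
  have h0T' : (0 : ℝ) ∈ Icc 0 T := ⟨le_rfl, hT.le⟩
  have hu0 : SPV (u 0) := sol_spv hs h0T
  -- the perturbation of the datum
  set W : V → V := fun x => u 0 x - ε • dP Gp i x with hWd
  have hWs : SPV W := by
    refine sp_spv fun k => ?_
    have e : (fun x => W x k) = fun x => u 0 x k - ε * dP Gp i x k := rfl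
    rw [e]
    exact (spv_sp hu0 k).sub (sp_cmul (spv_sp (hI1 i) k) ε)
  have hWR : Wn W ≤ R' := hW.trans (le_abs_self R)
  have hvW : u 0 = fun x => W x + ε • dP Gp i x := by
    funext x; simp only [hWd]; abel
  obtain ⟨hG0, hEn⟩ := hI8 i W (u 0) ε R' hWs hε hWR hvW
  -- the energy
  have hEE : √(EE 0 (u 0)) ≤ ε * E := by
    have h2 : √(EE 0 (u 0)) ≤ 2 * ε + 2 * R' := by
      apply Real.sqrt_le_iff.2
      have : 0 ≤ ε * R' := by positivity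
      exact ⟨by positivity, by nlinarith [sq_nonneg ε, sq_nonneg R']⟩
    have h3 : ε * E = 2 * ε + 2 * R' := by rw [hE]; field_simp
    rw [h3]; exact h2
  have hα0 : ∀ n, 0 ≤ α n := fun n => (al_pos hθ (by norm_num) n).le
  have hμ0 : ∀ n, 0 ≤ μ n := fun n => (mu_pos hθ (by norm_num) n).le
  obtain ⟨f, hS⟩ := hExt hOp hA hB Jn Gp α μ hPk hG hα0 hμ0 p δ ν T T₂ ε E c u q hK hν hT hcon hε
    hε1 hc (by linarith) hEE hs
  obtain ⟨κ, τ, qq, ℓ, s, w, P⟩ := hN₀ i hNi _ _ hS.d1 hS.D1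
  have eα : al (ε * θ) 2 p₀ 8 = fun n => ε * α n := by
    funext n; rw [hα]; unfold al; ring
  have eμ : mu (ε * θ) 2 p₀ 8 = fun n => ε * μ n := by
    funext n; rw [hμ]; unfold mu al; ring
  rw [eα, eμ] at P
  -- the initial amplitudes
  have hx0 : ∀ e m, am (Gp e m) (u (cl T 0)) / ε = am (Gp e m) W / ε + am (Gp e m) (dP Gp i) := by
    intro e m
    rw [cl_eq h0T', hvW, hI6 e m W (dP Gp i) hWs (hI1 i) ε]
    field_simp
  have hM1 : ∀ m, (1 : ℝ) ≤ Mn 8 m := fun m => one_le_Mn hN8 m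
  have hbound : ∀ e m, i ≤ m → |am (Gp e m) W / ε| ≤ 1 / 10 * (1 / (Mn 8 m : ℝ) ^ 5) := by
    intro e m hm
    have h1 : (Mn 8 m : ℝ) ^ 6 * |am (Gp e m) W / ε| ≤ 2 * (R' / ε) := by
      rw [abs_div, abs_of_pos hε, ← mul_div_assoc, ← mul_div_assoc]
      exact div_le_div_of_nonneg_right (hI7 W hWs R' hWR e m) hε.le
    have h2 : (Mn 8 i : ℝ) ≤ Mn 8 m := by
      unfold Mn; push_cast
      exact mul_le_mul_of_nonneg_left (pow_le_pow_right₀ (by norm_num) hm) (by norm_num)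
    have h3 : 20 * (R' / ε) ≤ Mn 8 m := by
      have : (0 : ℝ) ≤ N₀ := Nat.cast_nonneg _
      linarith
    have h4 : (0 : ℝ) < Mn 8 m := by linarith [hM1 m]
    rw [← mul_one_div, ← div_eq_mul_one_div, ← div_eq_mul_one_div, le_div_iff₀ (by positivity)]
    have h5 : (Mn 8 m : ℝ) * (|am (Gp e m) W / ε| * (Mn 8 m : ℝ) ^ 5) ≤ Mn 8 m * (1 / 10) := by
      calc _ = (Mn 8 m : ℝ) ^ 6 * |am (Gp e m) W / ε| := by ring
        _ ≤ 2 * (R' / ε) := h1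
        _ ≤ _ := by linarith
    exact le_of_mul_le_mul_left h5 h4
  have hfin := ind hDes hZst i T c E (13 * (R' / ε)) Jn Gp _ _ _ _ κ τ qq ℓ s w _ f _ _ hPk hS P
    (by positivity) (fun m hm j => En_init hN8 (fun k hk => by
      show |am (Gp 0 k) (u (cl T 0)) / ε| ≤ _
      rw [hx0 0 k, hI4, if_neg (by omega), add_zero]
      refine (hbound 0 k (by omega)).trans ?_
      have h4 : (0 : ℝ) ≤ 1 / (Mn 8 k : ℝ) ^ 5 := by positivity
      linarith) (fun k hk => by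
      show |am (Gp 1 k) (u (cl T 0)) / ε| ≤ _
      rw [hx0 1 k, hI5, if_neg (by omega), add_zero]
      refine (hbound 1 k (by omega)).trans ?_
      have h4 : (0 : ℝ) ≤ 1 / (Mn 8 k : ℝ) ^ 5 := by positivity
      linarith) j) ?_ ?_ ?_
  · exact hfin
  · show 7 / 10 ≤ am (Gp 0 i) (u (cl T 0)) / ε
    rw [hx0 0 i, hI4, if_pos rfl]
    have h1 := hbound 0 i le_rfl
    have h2 : 1 / (Mn 8 i : ℝ) ^ 5 ≤ 1 := by
      rw [div_le_one (by have := hM1 i; positivity)]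
      exact one_le_pow₀ (hM1 i)
    have h3 := neg_abs_le (am (Gp 0 i) W / ε)
    linarith
  · show s i ≤ am (Gp 1 i) (u (cl T 0)) / ε
    rw [hx0 1 i, hI5, if_pos rfl]
    have h1 := hbound 1 i le_rfl
    have h2 : 1 / (Mn 8 i : ℝ) ^ 5 ≤ 1 := by
      rw [div_le_one (by have := hM1 i; positivity)]
      exact one_le_pow₀ (hM1 i)
    have h3 := neg_abs_le (am (Gp 1 i) W / ε)
    have h4 := P.P.s1 i le_rfl
    linarith
  · have := hG0 (Mn 8 i) (hM1 i)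
    have e : 13 * R' / ε = 13 * (R' / ε) := by ring
    rw [e] at this
    exact this

end Pool.Agent.N977.P
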